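import Pool.Agent.Helper70.Inv.To

/-!
# The chain of inequalities
-/

set_option autoImplicit false

open PowerSeries

open Pool.Agent.Helper70.Sym

noncomputable section

namespace Pool.Agent.Helper70.Inv

/-- The series `X 1 * t`. -/
def Xt : PowerSeries R := PowerSeries.C (MvPolynomial.X 1) * PowerSeries.X

theorem coeff_Xt (n : ℕ) : coeff n Xt = if n = 1 then MvPolynomial.X 1 else 0 := by
  rw [Xt, coeff_C_mul, coeff_X]
  split_ifs <;> simp

theorem ord_Xt : Ord 1 Xt := by
  intro n hn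
  rw [coeff_Xt, if_neg (by omega)]

theorem pos_Xt (N : ℕ) : Pos N Xt := by
  intro n _
  rw [coeff_Xt]
  split_ifs with h
  · rw [h]
    exact NC.X1
  · exact NC.zero n

theorem theta_Xt : theta Xt = Xt := by
  ext1 n
  rw [coeff_theta, coeff_Xt]
  split_ifs with h
  · rw [h]
    simp
  · simp

theorem coeff_Xt_mul (n : ℕ) (f : PowerSeries R) :
    coeff (n + 1) (Xt * f) = MvPolynomial.X 1 * coeff n f := by
  rw [Xt, mul_assoc, coeff_C_mul, coeff_succ_X_mul]

theorem coeff_sser_odd (j : ℕ) (hj : ¬ 2 ∣ j) : coeff j sser = MvPolynomial.X 1 ^ j := by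
  have hj0 : j ≠ 0 := fun h => hj (h ▸ dvd_zero 2)
  rw [sser, coeff_mk, ← sum_LieT j hj0]
  have h1 : ∑ i ∈ Finset.range (j + 1), coeff j (Ss i)
      = ∑ i ∈ (Finset.range (j + 1)).filter (fun i => (2 * i + 1) ∣ j), LieT (2 * i + 1) j := by
    rw [Finset.sum_filter]
    refine Finset.sum_congr rfl fun i _ => ?_
    rw [coeff_Ss, if_neg hj0]
    split_ifs with h
    · rfl
    · rw [LieT, dif_neg (by omega), if_neg h]
  rw [h1]
  refine Finset.sum_bij' (fun i _ => 2 * i + 1) (fun n _ => n / 2) ?_ ?_ ?_ ?_ ?_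
  · intro i hi
    rw [Finset.mem_filter] at hi
    exact Nat.mem_divisors.2 ⟨hi.2, hj0⟩
  · intro n hn
    have hd := Nat.dvd_of_mem_divisors hn
    have h2 : ¬ 2 ∣ n := fun h => hj (h.trans hd)
    have h3 : 2 * (n / 2) + 1 = n := by omega
    rw [Finset.mem_filter, Finset.mem_range, h3]
    have := Nat.le_of_dvd (Nat.pos_of_ne_zero hj0) hd
    exact ⟨by omega, hd⟩
  · intro i _
    omega
  · intro n hn
    have hd := Nat.dvd_of_mem_divisors hn
    have h2 : ¬ 2 ∣ n := fun h => hj (h.trans hd)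
    omega
  · intro i _
    rfl

theorem coeff_sser_even (m : ℕ) : coeff (2 * m) sser = psi 2 (coeff m sser) := by
  rw [coeff_sser (le_refl (2 * m)), coeff_sser (show m ≤ 2 * m by omega), map_sum, map_sum,
    map_sum]
  refine Finset.sum_congr rfl fun i _ => ?_
  rw [coeff_Ss, coeff_Ss]
  by_cases hm : m = 0
  · subst hm
    simp
  · rw [if_neg (by omega), if_neg hm, LieT, LieT, dif_neg (by omega), dif_neg (by omega)]
    have hcop : Nat.Coprime (2 * i + 1) 2 := by
      rw [Nat.coprime_two_right]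
      exact ⟨i, rfl⟩
    by_cases hd : (2 * i + 1) ∣ m
    · rw [if_pos (hd.mul_left 2), if_pos hd, map_mul, map_natCast, psi_psi,
        Nat.mul_div_assoc _ hd]
    · rw [if_neg hd, if_neg, map_zero]
      intro h
      exact hd (hcop.dvd_of_dvd_mul_left h)

/-- The odd part of the logarithmic derivative. -/
def Od : PowerSeries R := PowerSeries.mk fun j => if 2 ∣ j then 0 else MvPolynomial.X 1 ^ j

theorem sser_eq : sser = Od + Ps sser := by
  ext1 j
  rw [map_add, coeff_Ps, Od, coeff_mk]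
  split_ifs with h
  · obtain ⟨m, rfl⟩ := h
    rw [coeff_sser_even, Nat.mul_div_cancel_left _ two_pos, zero_add]
  · rw [coeff_sser_odd j h, add_zero]

theorem Od_eq : (1 - Xt ^ 2) * Od = Xt := by
  have h : (1 - Xt ^ 2) * Od = Od - Xt * (Xt * Od) := by ring
  rw [h]
  ext1 j
  rcases j with _ | _ | j
  · rw [map_sub, coeff_zero_mul, ord_Xt.coeff_zero, Od, coeff_mk]
    simp
  · rw [map_sub, zero_add, show coeff 1 (Xt * (Xt * Od)) = _ from coeff_Xt_mul 0 _,
      coeff_zero_mul, ord_Xt.coeff_zero, Od, coeff_mk, coeff_Xt]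
    simp
  · rw [map_sub, coeff_Xt_mul, coeff_Xt_mul, coeff_Xt, if_neg (by omega), Od, coeff_mk, coeff_mk]
    by_cases h : 2 ∣ j
    · rw [if_pos h, if_pos (by omega)]
      simp
    · rw [if_neg h, if_neg (by omega)]
      ring

theorem To_sq : To ^ 2 * (1 - Xt) = (1 + Xt) * Ps To := by
  obtain ⟨G, hG⟩ := exists_geo Xt ord_Xt
  obtain ⟨G', hG'⟩ := exists_inv (1 + Xt) (by
    rw [map_add, ord_Xt.coeff_zero, coeff_one, if_pos rfl, add_zero])
  have hO : 2 * Od = Xt * G + Xt * G' := by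
    have h1 : coeff 0 (1 - Xt ^ 2) = 1 := by
      rw [map_sub, pow_two, coeff_zero_mul, ord_Xt.coeff_zero, coeff_one, if_pos rfl]
      ring
    refine cancel_left h1 ?_
    linear_combination 2 * Od_eq - Xt * (1 + Xt) * hG - Xt * (1 - Xt) * hG'
  have h1 : theta (To ^ 2 * (1 - Xt)) = (To ^ 2 * (1 - Xt)) * (2 * sser - Xt * G) := by
    rw [theta_mul, pow_two, theta_mul, theta_sub, theta_one, theta_Xt, theta_To]
    linear_combination (To * To * Xt) * hG
  have h2 : theta ((1 + Xt) * Ps To) = ((1 + Xt) * Ps To) * (2 * Ps sser + Xt * G') := by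
    rw [theta_mul, theta_add, theta_one, theta_Xt, theta_Ps, theta_To, map_mul]
    linear_combination (-(Xt * Ps To)) * hG'
  have h3 : 2 * sser - Xt * G = 2 * Ps sser + Xt * G' := by
    linear_combination 2 * sser_eq + hO
  have h0 : coeff 0 (2 * sser - Xt * G) = 0 := by
    rw [map_sub, coeff_zero_mul, coeff_zero_mul, coeff_zero_sser, ord_Xt.coeff_zero]
    ring
  ext1 n
  refine agree n h1 (by rw [h3]; exact h2) ?_ h0 h0 (fun _ _ => rfl) n le_rfl
  rw [coeff_zero_mul, coeff_zero_mul, pow_two, coeff_zero_mul, coeff_zero_To, map_sub, map_add,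
    ord_Xt.coeff_zero, coeff_one, if_pos rfl, show (0 : ℕ) = 2 * 0 from rfl, coeff_Ps_two_mul,
    coeff_zero_To, map_one]
  ring

theorem coeff_zero_V : coeff 0 (To * (1 - Xt)) = 1 := by
  rw [coeff_zero_mul, coeff_zero_To, map_sub, ord_Xt.coeff_zero, coeff_one, if_pos rfl, sub_zero,
    one_mul]

theorem FE_U {U : PowerSeries R} (h : (To * (1 - Xt)) * U = 1) : FE Xt U := by
  refine ⟨ord_Xt, ?_, ?_⟩
  · have := congrArg (coeff 0) h
    rwa [coeff_zero_mul, coeff_zero_V, one_mul, coeff_one, if_pos rfl] at this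
  · have hP := congrArg Ps h
    rw [map_mul, map_mul, map_sub, map_one] at hP
    have h0 : coeff 0 ((To * (1 - Xt)) ^ 2 * Ps (To * (1 - Xt))) = 1 := by
      rw [coeff_zero_mul, pow_two, coeff_zero_mul, coeff_zero_V, show (0 : ℕ) = 2 * 0 from rfl,
        coeff_Ps_two_mul, coeff_zero_V, map_one]
      ring
    refine cancel_left h0 ?_
    rw [map_mul, map_sub, map_one]
    have e1 : (To * (1 - Xt)) ^ 2 * (Ps To * (1 - Ps Xt)) * (U ^ 2 * (1 - Xt ^ 2))
        = (Ps To * (1 - Ps Xt)) * (1 - Xt ^ 2) := by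
      linear_combination ((Ps To * (1 - Ps Xt)) * (1 - Xt ^ 2)) * (To * (1 - Xt) * U + 1) * h
    have e2 : (To * (1 - Xt)) ^ 2 * (Ps To * (1 - Ps Xt)) * ((1 - Ps Xt) * Ps U)
        = (To * (1 - Xt)) ^ 2 * (1 - Ps Xt) := by
      linear_combination ((To * (1 - Xt)) ^ 2 * (1 - Ps Xt)) * hP
    rw [e1, e2]
    linear_combination (-((1 - Xt) * (1 - Ps Xt))) * To_sq

/-! ## Even series -/

/-- A series with even exponents. -/
def EvS (f : PowerSeries R) : Prop := ∀ n, ¬ 2 ∣ n → coeff n f = 0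

theorem EvS.mul {f g : PowerSeries R} (hf : EvS f) (hg : EvS g) : EvS (f * g) := by
  intro n hn
  rw [coeff_mul]
  refine Finset.sum_eq_zero fun p hp => ?_
  rw [Finset.HasAntidiagonal.mem_antidiagonal] at hp
  by_cases h : 2 ∣ p.1
  · rw [hg p.2 (by omega), mul_zero]
  · rw [hf _ h, zero_mul]

theorem evS_Ps (f : PowerSeries R) : EvS (Ps f) := by
  intro n hn
  rw [coeff_Ps, if_neg hn]

theorem EvS.geo {f g : PowerSeries R} (hf : EvS f) (h0 : Ord 1 f) (h : (1 - f) * g = 1) :
    EvS g := by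
  have h1 : g = 1 + f * g := by linear_combination h
  intro n
  induction n using Nat.strong_induction_on with
  | _ n ih =>
    intro hn
    rw [h1, map_add, coeff_one, if_neg (by omega), zero_add, coeff_mul]
    refine Finset.sum_eq_zero fun p hp => ?_
    rw [Finset.HasAntidiagonal.mem_antidiagonal] at hp
    by_cases h2 : 2 ∣ p.1
    · rcases Nat.eq_zero_or_pos p.1 with h3 | h3
      · rw [h3, h0.coeff_zero, zero_mul]
      · rw [ih p.2 (by omega) (by omega), mul_zero]
    · rw [hf _ h2, zero_mul]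

theorem EvS.of_sq {f : PowerSeries R} (h0 : coeff 0 f = 1) (h : EvS (f ^ 2)) : EvS f := by
  intro n
  induction n using Nat.strong_induction_on with
  | _ n ih =>
    intro hn
    have h1 := h n hn
    rw [pow_two, coeff_mul_range, Finset.sum_range_succ, Nat.sub_self, h0, one_mul] at h1
    obtain ⟨m, rfl⟩ := Nat.exists_eq_succ_of_ne_zero (show n ≠ 0 by omega)
    rw [Finset.sum_range_succ', h0, mul_one, Nat.sub_zero] at h1
    have h2 : ∑ k ∈ Finset.range m, coeff (m.succ - (k + 1)) f * coeff (k + 1) f = 0 := by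
      refine Finset.sum_eq_zero fun k hk => ?_
      have hk' := Finset.mem_range.1 hk
      by_cases h3 : 2 ∣ (k + 1)
      · rw [ih (m.succ - (k + 1)) (by omega) (by omega), zero_mul]
      · rw [ih (k + 1) (by omega) h3, mul_zero]
    rw [h2, zero_add] at h1
    have h3 : (2 : R) * coeff m.succ f = 0 := by linear_combination h1
    rcases mul_eq_zero.1 h3 with h4 | h4
    · exact absurd h4 two_ne_zero
    · exact h4

theorem evS_Xt_sq : EvS (Xt ^ 2) := by
  intro n hn
  rw [pow_two]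
  rcases n with _ | n
  · exact absurd (dvd_zero 2) hn
  · rw [coeff_Xt_mul, coeff_Xt, if_neg (by omega), mul_zero]

/-! ## The even part of `To` -/

theorem ord_Xt_sq : Ord 1 (Xt ^ 2) := ord_Xt.sq.mono (by omega)

/-- The even part. -/
def Ev : PowerSeries R := To * (1 - Xt) * (exists_geo (Xt ^ 2) ord_Xt_sq).choose

theorem geo_spec : (1 - Xt ^ 2) * (exists_geo (Xt ^ 2) ord_Xt_sq).choose = 1 :=
  (exists_geo (Xt ^ 2) ord_Xt_sq).choose_spec

theorem Ev_mul : Ev * (1 - Xt ^ 2) = To * (1 - Xt) := by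
  rw [Ev]
  linear_combination (To * (1 - Xt)) * geo_spec

theorem To_eq : To = (1 + Xt) * Ev := by
  rw [Ev]
  linear_combination (-To) * geo_spec

theorem Ev_sq : Ev ^ 2 = Ps To * (exists_geo (Xt ^ 2) ord_Xt_sq).choose := by
  rw [Ev]
  set G := (exists_geo (Xt ^ 2) ord_Xt_sq).choose with hG
  have hs : (1 - Xt ^ 2) * G = 1 := geo_spec
  linear_combination ((1 - Xt) * G ^ 2) * To_sq + (Ps To * G) * hs

theorem coeff_zero_Ev : coeff 0 Ev = 1 := by
  have h := congrArg (coeff 0) geo_spec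
  rw [coeff_zero_mul, map_sub, ord_Xt_sq.coeff_zero, coeff_one, if_pos rfl, sub_zero,
    one_mul] at h
  rw [Ev, coeff_zero_mul, coeff_zero_V, h, mul_one]

theorem evS_Ev : EvS Ev := by
  refine EvS.of_sq coeff_zero_Ev ?_
  rw [Ev_sq]
  exact (evS_Ps To).mul (evS_Xt_sq.geo ord_Xt_sq geo_spec)

theorem coeff_To_even (m : ℕ) : coeff (2 * m) To = coeff (2 * m) Ev := by
  rw [To_eq, add_mul, one_mul, map_add]
  rcases m with _ | m
  · rw [mul_zero, coeff_zero_mul, ord_Xt.coeff_zero, zero_mul, add_zero]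
  · rw [show 2 * (m + 1) = (2 * m + 1) + 1 by ring, coeff_Xt_mul, evS_Ev (2 * m + 1) (by omega),
      mul_zero, add_zero]

theorem coeff_To_odd (m : ℕ) : coeff (2 * m + 1) To = MvPolynomial.X 1 * coeff (2 * m) Ev := by
  rw [To_eq, add_mul, one_mul, map_add, coeff_Xt_mul, evS_Ev (2 * m + 1) (by omega), zero_add]

theorem exists_U : ∃ U : PowerSeries R, (To * (1 - Xt)) * U = 1 := exists_inv _ coeff_zero_V

/-- The third inequality, one step. -/
theorem nc_step (n : ℕ) : NC (n + 1) (MvPolynomial.X 1 * coeff n To - coeff (n + 1) To) := by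
  rcases Nat.even_or_odd' n with ⟨m, rfl | rfl⟩
  · rw [coeff_To_even, coeff_To_odd, sub_self]
    exact NC.zero _
  · rw [coeff_To_odd, show 2 * m + 1 + 1 = 2 * (m + 1) by ring, coeff_To_even]
    obtain ⟨U, hU⟩ := exists_U
    have h1 : Pos (2 * m + 3) (1 - To * (1 - Xt)) :=
      (FE_U hU).pos_K (pos_Xt _) (by rw [mul_comm]; exact hU)
    have h2 := h1 (2 * m + 2) (by omega)
    rw [← Ev_mul] at h2
    have h3 : coeff (2 * m + 2) (1 - Ev * (1 - Xt ^ 2))
        = MvPolynomial.X 1 * (MvPolynomial.X 1 * coeff (2 * m) Ev) - coeff (2 * (m + 1)) Ev := by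
      have h4 : 1 - Ev * (1 - Xt ^ 2) = 1 - Ev + Xt * (Xt * Ev) := by ring
      rw [h4, map_add, map_sub, coeff_one, if_neg (by omega), coeff_Xt_mul, coeff_Xt_mul,
        show 2 * (m + 1) = 2 * m + 2 by ring]
      ring
    rw [h3] at h2
    exact h2

/-- The third inequality. -/
theorem nc_steps (n j : ℕ) :
    NC (n + j) (MvPolynomial.X 1 ^ j * coeff n To - coeff (n + j) To) := by
  induction j with
  | zero => simpa using NC.zero n
  | succ j ih =>
    have h1 := (NC.X1.mul ih).cast (show 1 + (n + j) = n + (j + 1) by ring)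
    have h2 := NC.add _ _ _ h1 (nc_step (n + j))
    have h3 : (MvPolynomial.X 1 : R) * (MvPolynomial.X 1 ^ j * coeff n To - coeff (n + j) To)
        + (MvPolynomial.X 1 * coeff (n + j) To - coeff (n + j + 1) To)
        = MvPolynomial.X 1 ^ (j + 1) * coeff n To - coeff (n + (j + 1)) To := by
      rw [← add_assoc n j 1, pow_succ]
      ring
    rwa [h3] at h2

/-- The second inequality, in terms of the functional equation. -/
theorem FE.pos_even {N : ℕ} {X S T G₁ G₂ : PowerSeries R} (h : FE X S) (hp : Pos N X)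
    (hT : S * T = 1) (h₁ : (1 - X ^ 2) * G₁ = 1) (h₂ : (1 - Ps X) * G₂ = 1) :
    Pos N (hf * (G₁ + G₂) - T * G₁) := by
  have hh : Ord 1 (hS X) := h.zero.hS.mono (by omega)
  have he : Ord 1 (eS X) := h.zero.eS.mono (by omega)
  obtain ⟨P, hP⟩ := exists_geo (hS X) hh
  set y := eS X * P with hy
  have hy0 : Ord 1 y := he.mul_right P
  have hc : coeff 0 (1 - y) = 1 := by
    rw [map_sub, hy0.coeff_zero, coeff_one, if_pos rfl, sub_zero]
  obtain ⟨S₁, hS₁⟩ := exists_inv ((1 - y) * S) (by rw [coeff_zero_mul, hc, h.one, mul_one])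
  have f₁ : FE y S₁ := h.alpha hP hS₁
  have hPp : Pos N P := hp.hS.geo hh hP
  have hyp : Pos N y := hp.eS.mul hPp
  have hh1 : Ord 1 (hS y) := hy0.hS.mono (by omega)
  obtain ⟨P₁, hP₁⟩ := exists_geo (hS y) hh1
  set z := eS y * P₁ with hz
  have hz0 : Ord 1 z := (hy0.eS.mono (by omega)).mul_right P₁
  have hcz : coeff 0 (1 - z) = 1 := by
    rw [map_sub, hz0.coeff_zero, coeff_one, if_pos rfl, sub_zero]
  obtain ⟨S₂, hS₂⟩ := exists_inv ((1 - z) * S₁) (by rw [coeff_zero_mul, hcz, f₁.one, mul_one])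
  have f₂ : FE z S₂ := f₁.alpha hP₁ hS₂
  have hP₁p : Pos N P₁ := hyp.hS.geo hh1 hP₁
  have hzp : Pos N z := hyp.eS.mul hP₁p
  have hS₁p : Pos N S₁ := f₁.pos hyp
  have hS₂p : Pos N S₂ := f₂.pos hzp
  -- the constant coefficient of `P₁ * S₂`
  have hP₁0 : coeff 0 P₁ = 1 := by
    have := congrArg (coeff 0) hP₁
    rwa [coeff_zero_mul, map_sub, hh1.coeff_zero, coeff_one, if_pos rfl, sub_zero, one_mul] at this
  have hV : Pos N (P₁ * S₂ - 1) :=
    (hP₁p.mul hS₂p).sub_one (by rw [coeff_zero_mul, hP₁0, f₂.one, mul_one])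
  have key : hf * (G₁ + G₂) - T * G₁ = P * S₁ * (P₁ * S₂ - 1) := by
    have a1 := hS_add_eS X
    have a2 := hS_sub_eS X
    have b1 := hS_add_eS y
    -- `1 - y = (1 - X ^ 2) * P`, `1 + y = (1 - Ps X) * P`
    have c1 : 1 - y = (1 - X ^ 2) * P := by
      rw [hy]
      linear_combination (-1 : PowerSeries R) * hP - P * a1
    have c2 : 1 + y = (1 - Ps X) * P := by
      rw [hy]
      linear_combination (-1 : PowerSeries R) * hP - P * a2
    have c3 : 1 - z = (1 - y ^ 2) * P₁ := by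
      rw [hz]
      linear_combination (-1 : PowerSeries R) * hP₁ - P₁ * b1
    -- `T = (1 - y) * S₁`
    have d1 : T = (1 - y) * S₁ := by
      linear_combination ((1 - y) * S₁) * hT - T * hS₁
    have d2 : T * G₁ = P * S₁ := by
      rw [d1, c1]
      linear_combination (P * S₁) * h₁
    have d3 : hf * (G₁ + G₂) = (1 - hS X) * G₁ * G₂ := by
      have e1 : hf * (X ^ 2 + Ps X) = hS X := rfl
      rw [← e1]
      linear_combination (-(hf * G₂)) * h₁ - (hf * G₁) * h₂ + (G₁ * G₂) * hf_two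
    have d4 : (1 - y ^ 2) * P₁ * S₁ * S₂ = 1 := by
      rw [← c3]
      linear_combination hS₂
    have hc2 : coeff 0 (1 - y ^ 2) = 1 := by
      rw [map_sub, pow_two, coeff_zero_mul, hy0.coeff_zero, coeff_one, if_pos rfl]
      ring
    have d5 : hf * (G₁ + G₂) = P * S₁ * (P₁ * S₂) := by
      refine cancel_left hc2 ?_
      rw [d3]
      have e2 : 1 - y ^ 2 = (1 - X ^ 2) * P * ((1 - Ps X) * P) := by
        rw [← c1, ← c2]
        ring
      have e3 : (1 - y ^ 2) * ((1 - hS X) * G₁ * G₂) = P := by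
        rw [e2]
        linear_combination (P * ((1 - hS X) * P)) * ((1 - Ps X) * G₂) * h₁
          + (P * ((1 - hS X) * P)) * h₂ + P * hP
      rw [e3]
      linear_combination (-P) * d4
    rw [d5, d2]
    ring
  rw [key]
  exact (hPp.mul hS₁p).mul hV

/-- The cycle index of a fixed point free involution. -/
def Gk (k : ℕ) : R := MvPolynomial.C (1 / 2 : ℂ) * (MvPolynomial.X 1 ^ (2 * k) +
  MvPolynomial.X 2 ^ k)

theorem coeff_geo (c : R) (k : ℕ) {G : PowerSeries R}
    (hG : (1 - PowerSeries.C c * PowerSeries.X ^ 2) * G = 1) : coeff (2 * k) G = c ^ k := by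
  have h1 : G = 1 + PowerSeries.C c * (PowerSeries.X * (PowerSeries.X * G)) := by
    linear_combination hG
  induction k with
  | zero =>
    rw [h1, map_add, coeff_C_mul, coeff_one]
    simp
  | succ k ih =>
    rw [h1, map_add, coeff_C_mul, show 2 * (k + 1) = (2 * k + 1) + 1 by ring, coeff_succ_X_mul,
      coeff_succ_X_mul, ih, coeff_one, if_neg (by omega)]
    ring

/-- The second inequality. -/
theorem nc_even (k : ℕ) : NC (2 * k) (Gk k - coeff (2 * k) To) := by
  obtain ⟨U, hU⟩ := exists_U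
  have hXs : Xt ^ 2 = PowerSeries.C (MvPolynomial.X 1 ^ 2) * PowerSeries.X ^ 2 := by
    rw [Xt, map_pow]
    ring
  have hXp : Ps Xt = PowerSeries.C (MvPolynomial.X 2) * PowerSeries.X ^ 2 := by
    have h1 : Xt = PowerSeries.monomial 1 (MvPolynomial.X 1) := by
      ext1 n
      rw [coeff_Xt, coeff_monomial]
    rw [h1, Ps_monomial, psi_X, mul_one]
    ext1 n
    rw [coeff_monomial, coeff_C_mul, coeff_X_pow]
    split_ifs <;> simp
  obtain ⟨G₂, h₂⟩ := exists_geo (Ps Xt) (ord_Xt.Ps.mono (by omega))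
  have h := (FE_U hU).pos_even (N := 2 * k + 1) (pos_Xt _) (by rw [mul_comm]; exact hU) geo_spec h₂
  have h3 := h (2 * k) (by omega)
  rw [map_sub] at h3
  have h4 : coeff (2 * k) (hf * ((exists_geo (Xt ^ 2) ord_Xt_sq).choose + G₂)) = Gk k := by
    have h5 := geo_spec
    rw [hXp] at h₂
    rw [hf, coeff_C_mul, map_add, coeff_geo _ k h₂]
    have h6 : coeff (2 * k) (exists_geo (Xt ^ 2) ord_Xt_sq).choose
        = (MvPolynomial.X 1 ^ 2) ^ k := by
      refine coeff_geo _ k ?_
      rw [← hXs]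
      exact h5
    rw [h6, Gk, pow_mul]
  rw [h4] at h3
  rw [coeff_To_even]
  exact h3

end Pool.Agent.Helper70.Inv
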