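import Pool.Agent.Helper70.Inv.Ser

/-!
# The functional equation
-/

set_option autoImplicit false

open PowerSeries

open Pool.Agent.Helper70.Sym

noncomputable section

namespace Pool.Agent.Helper70.Inv

/-- The functional equation. -/
structure FE (X S : PowerSeries R) : Prop where
  zero : Ord 1 X
  one : coeff 0 S = 1
  eq : S ^ 2 * (1 - X ^ 2) = (1 - Ps X) * Ps S

theorem coeff_zero_mul (f g : PowerSeries R) : coeff 0 (f * g) = coeff 0 f * coeff 0 g := by
  simp

theorem Ord.coeff_zero {f : PowerSeries R} (h : Ord 1 f) : coeff 0 f = 0 := h 0 one_pos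

theorem ord_one {f : PowerSeries R} (h : coeff 0 f = 0) : Ord 1 f := by
  intro n hn
  have : n = 0 := by omega
  rw [this, h]

theorem Ord.succ {r : ℕ} {f : PowerSeries R} (hf : Ord r f) (h : coeff r f = 0) :
    Ord (r + 1) f := by
  intro n hn
  rcases Nat.lt_or_ge n r with h1 | h1
  · exact hf n h1
  · have : n = r := by omega
    rw [this, h]

theorem FE.ord {r : ℕ} {X S : PowerSeries R} (h : FE X S) (hr : Ord r X) : Ord (2 * r) (S - 1) := by
  have key : ∀ n, n ≤ 2 * r → Ord n (S - 1) := by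
    intro n
    induction n with
    | zero => intro _; exact Ord.zero' _
    | succ n ih =>
      intro hn
      have h0 := ih (by omega)
      refine h0.succ ?_
      rcases Nat.eq_zero_or_pos n with h1 | h1
      · rw [h1, map_sub, h.one, coeff_one, if_pos rfl, sub_self]
      · have h2 : hf * 2 * (S - 1) = hf * (Ps (S - 1) - (S - 1) ^ 2 + (S ^ 2 * X ^ 2
            - Ps X * Ps S)) := by
          rw [map_sub, map_one]
          linear_combination hf * h.eq
        rw [hf_two, one_mul] at h2
        rw [h2]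
        have h3 : Ord (n + 1) (Ps (S - 1)) := h0.Ps.mono (by omega)
        have h4 : Ord (n + 1) ((S - 1) ^ 2) := h0.sq.mono (by omega)
        have h5 : Ord (n + 1) (S ^ 2 * X ^ 2) := (hr.sq.mul_left _).mono (by omega)
        have h6 : Ord (n + 1) (Ps X * Ps S) := (hr.Ps.mul_right _).mono (by omega)
        exact (((h3.sub h4).add (h5.sub h6)).mul_left hf) n (by omega)
  exact key _ le_rfl

theorem FE.beta {X S P : PowerSeries R} (h : FE X S) (hP : (1 - eS X) * P = 1) :
    FE (hS X * P) ((1 - eS X) * S) := by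
  have he : Ord 1 (eS X) := h.zero.eS.mono (by omega)
  refine ⟨(h.zero.hS.mono (by omega)).mul_right P, ?_, ?_⟩
  · rw [coeff_zero_mul, h.one, map_sub, he.coeff_zero, coeff_one, if_pos rfl, sub_zero, one_mul]
  · have h1 := hS_add_eS X
    have h2 := hS_sub_eS X
    have hP' := congrArg Ps hP
    rw [map_mul, map_sub, map_one] at hP'
    have h3 : Ps (hS X) + Ps (eS X) = Ps X ^ 2 := by rw [← map_add, h1, map_pow]
    rw [map_mul, map_mul, map_sub, map_one]
    have e1 : ((1 - eS X) * S) ^ 2 * (1 - (hS X * P) ^ 2)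
        = S ^ 2 * ((1 - eS X) ^ 2 - hS X ^ 2) := by
      linear_combination (-(S ^ 2 * hS X ^ 2)) * ((1 - eS X) * P + 1) * hP
    have e2 : (1 - eS X) ^ 2 - hS X ^ 2 = (1 - X ^ 2) * (1 + Ps X) := by
      linear_combination (-(1 + Ps X)) * h1 + (1 - hS X - eS X) * h2
    have e3 : (1 - Ps (hS X) * Ps P) * ((1 - Ps (eS X)) * Ps S) = (1 - Ps X ^ 2) * Ps S := by
      linear_combination (-(Ps (hS X) * Ps S)) * hP' - Ps S * h3
    rw [e1, e2, e3]
    linear_combination (1 + Ps X) * h.eq

theorem FE.alpha {X S P S' : PowerSeries R} (h : FE X S) (hP : (1 - hS X) * P = 1)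
    (hS' : (1 - eS X * P) * S * S' = 1) : FE (eS X * P) S' := by
  have he : Ord 1 (eS X * P) := (h.zero.eS.mono (by omega)).mul_right P
  set y := eS X * P with hy
  have h0 : coeff 0 ((1 - y) * S) = 1 := by
    rw [coeff_zero_mul, h.one, map_sub, he.coeff_zero, coeff_one, if_pos rfl, sub_zero, one_mul]
  refine ⟨he, ?_, ?_⟩
  · have := congrArg (coeff 0) hS'
    rwa [coeff_zero_mul, h0, one_mul, coeff_one, if_pos rfl] at this
  · have h1 := hS_add_eS X
    have h2 := hS_sub_eS X
    have hPs := congrArg Ps hS'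
    rw [map_mul, map_mul, map_sub, map_one] at hPs
    have hx0 : coeff 0 ((1 - hS X) * ((1 - y) * S) ^ 2 * Ps ((1 - y) * S)) = 1 := by
      rw [coeff_zero_mul, coeff_zero_mul, pow_two, coeff_zero_mul, h0, mul_one, mul_one, map_sub,
        (h.zero.hS.mono (by omega)).coeff_zero, coeff_one, if_pos rfl, sub_zero, one_mul,
        show (0 : ℕ) = 2 * 0 from rfl, coeff_Ps_two_mul, h0, map_one]
    refine cancel_left hx0 ?_
    rw [map_mul, map_sub, map_one]
    -- the key relation
    have key : (1 - hS X) * ((1 + y) * Ps S) = (1 - hS X) * ((1 - y) * S ^ 2) := by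
      have k1 : (1 - hS X) * (1 + y) = 1 - Ps X := by
        rw [hy]
        linear_combination eS X * hP - h2
      have k2 : (1 - hS X) * (1 - y) = 1 - X ^ 2 := by
        rw [hy]
        linear_combination (-(eS X)) * hP - h1
      rw [← mul_assoc, ← mul_assoc, k1, k2]
      linear_combination -h.eq
    have l1 : (1 - hS X) * ((1 - y) * S) ^ 2 * ((1 - Ps y) * Ps S) * (S' ^ 2 * (1 - y ^ 2))
        = (1 - hS X) * ((1 + y) * Ps S) * ((1 - y) * (1 - Ps y)) := by
      linear_combination ((1 - hS X) * ((1 - Ps y) * Ps S) * (1 - y ^ 2)) *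
        ((1 - y) * S * S' + 1) * hS'
    have l2 : (1 - hS X) * ((1 - y) * S) ^ 2 * ((1 - Ps y) * Ps S) * ((1 - Ps y) * Ps S')
        = (1 - hS X) * ((1 - y) * S ^ 2) * ((1 - y) * (1 - Ps y)) := by
      linear_combination ((1 - hS X) * ((1 - y) * S) ^ 2 * (1 - Ps y)) * hPs
    rw [l1, l2, key]

/-- Positivity of the solution of the functional equation. -/
theorem FE.pos_aux (N : ℕ) : ∀ (k r : ℕ) (X S : PowerSeries R), 1 ≤ r → N ≤ r + k → FE X S →
    Ord r X → Pos N X → Pos N S := by
  intro k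
  induction k with
  | zero =>
    intro r X S hr hN h ho _
    have h1 : Ord N (S - 1) := (h.ord ho).mono (by omega)
    have h2 : S = (S - 1) + 1 := by ring
    rw [h2]
    exact h1.pos.add (Pos.one N)
  | succ k ih =>
    intro r X S hr hN h ho hp
    have he : Ord 1 (eS X) := h.zero.eS.mono (by omega)
    obtain ⟨P, hP⟩ := exists_geo (eS X) he
    have hPp : Pos N P := hp.eS.geo he hP
    have h1 := ih (2 * r) _ _ (by omega) (by omega) (h.beta hP) (ho.hS.mul_right P)
      (hp.hS.mul hPp)
    have h2 : S = P * ((1 - eS X) * S) := by linear_combination (-S) * hP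
    rw [h2]
    exact hPp.mul h1

theorem FE.pos {N : ℕ} {X S : PowerSeries R} (h : FE X S) (hp : Pos N X) : Pos N S :=
  FE.pos_aux N N 1 X S le_rfl (by omega) h h.zero hp

/-- Positivity of the auxiliary series. -/
theorem pos_sharp (N : ℕ) (y Q : PowerSeries R) (hy : Pos N y) (hy0 : Ord 1 y)
    (hQ : (1 - y) * Q = 1) : ∀ (k r : ℕ) (x : PowerSeries R), N ≤ r + k → Ord r x → Pos N x →
    Pos N ((1 - y) * eS (x * Q)) ∧ Pos N ((1 - y) * hS (x * Q)) := by
  intro k
  induction k with
  | zero =>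
    intro r x hN ho _
    have h1 := ho.mul_right Q
    exact ⟨((h1.eS.mul_left _).mono (by omega)).pos, ((h1.hS.mul_left _).mono (by omega)).pos⟩
  | succ k ih =>
    intro r x hN ho hp
    obtain ⟨h1, h2⟩ := ih (r + 1) (x * y) (by omega) (ho.mul hy0) (hp.mul hy)
    have hQ' := congrArg Ps hQ
    rw [map_mul, map_sub, map_one] at hQ'
    have hx : (1 - y) * (x * Q) = x := by linear_combination x * hQ
    have hx' : (1 - Ps y) * (Ps x * Ps Q) = Ps x := by linear_combination Ps x * hQ'
    have e1 : (1 - y) * eS (x * Q) = eS x + y * hS x + (1 - y) * eS (x * y * Q) := by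
      unfold eS hS
      rw [map_mul, map_mul, map_mul]
      linear_combination (hf * (1 + y) * ((1 - y) * (x * Q) + x)) * hx
        + (-(hf * (1 - y))) * hx'
    have e2 : (1 - y) * hS (x * Q) = hS x + y * eS x + (1 - y) * hS (x * y * Q) := by
      unfold eS hS
      rw [map_mul, map_mul, map_mul]
      linear_combination (hf * (1 + y) * ((1 - y) * (x * Q) + x)) * hx
        + (hf * (1 - y)) * hx'
    rw [e1, e2]
    exact ⟨(hp.eS.add (hy.mul hp.hS)).add h1, (hp.hS.add (hy.mul hp.eS)).add h2⟩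

/-- Positivity of `(1 - y) (1 - 1 / S)`. -/
theorem FE.pos_K_aux (N : ℕ) : ∀ (k r : ℕ) (x y Q S T : PowerSeries R), 1 ≤ r → N ≤ r + k →
    Ord 1 y → (1 - y) * Q = 1 → FE (x * Q) S → S * T = 1 →
    Ord r x → Pos N x → Pos N y → Pos N ((1 - y) * (1 - T)) := by
  intro k
  induction k with
  | zero =>
    intro r x y Q S T hr hN hy0 hQ h hT ho _ _
    have h1 : Ord N (S - 1) := (h.ord (ho.mul_right Q)).mono (by omega)
    have h2 : (1 - y) * (1 - T) = (1 - y) * (T * (S - 1)) := by
      linear_combination (-(1 - y)) * hT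
    rw [h2]
    exact ((h1.mul_left _).mul_left _).pos
  | succ k ih =>
    intro r x y Q S T hr hN hy0 hQ h hT ho hx hy
    have he : Ord 1 (eS (x * Q)) := h.zero.eS.mono (by omega)
    obtain ⟨P, hP⟩ := exists_geo (eS (x * Q)) he
    obtain ⟨h1, h2⟩ := pos_sharp N y Q hy hy0 hQ N 0 x (by omega) (Ord.zero' x) hx
    have hy1 : 1 - (y + (1 - y) * eS (x * Q)) = (1 - y) * (1 - eS (x * Q)) := by ring
    have hQ1 : (1 - (y + (1 - y) * eS (x * Q))) * (P * Q) = 1 := by
      rw [hy1]
      linear_combination ((1 - y) * Q) * hP + hQ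
    have hX1 : (1 - y) * hS (x * Q) * (P * Q) = hS (x * Q) * P := by
      linear_combination (hS (x * Q) * P) * hQ
    have hb := h.beta hP
    rw [← hX1] at hb
    have hT1 : (1 - eS (x * Q)) * S * (P * T) = 1 := by
      linear_combination (S * T) * hP + hT
    have h3 := ih (2 * r) ((1 - y) * hS (x * Q)) (y + (1 - y) * eS (x * Q)) (P * Q)
      ((1 - eS (x * Q)) * S) (P * T) (by omega) (by omega) (hy0.add (he.mul_left _)) hQ1 hb hT1
      (((ho.mul_right Q).hS).mul_left _) h2 (hy.add h1)
    have h4 : (1 - y) * (1 - T) = (1 - y) * eS (x * Q)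
        + (1 - (y + (1 - y) * eS (x * Q))) * (1 - P * T) := by
      linear_combination ((1 - y) * T) * hP
    rw [h4]
    exact h1.add h3

/-- Positivity of `1 - 1 / S`. -/
theorem FE.pos_K {N : ℕ} {X S T : PowerSeries R} (h : FE X S) (hp : Pos N X) (hT : S * T = 1) :
    Pos N (1 - T) := by
  have h1 := FE.pos_K_aux N N 1 X 0 1 S T le_rfl (by omega) (by intro n _; simp) (by ring)
    (by rwa [mul_one]) hT h.zero hp (by intro n _; rw [map_zero]; exact NC.zero n)
  simpa using h1

end Pool.Agent.Helper70.Inv
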