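import Pool.Agent.Helper70.Inv.Chain
import Pool.Agent.Helper70.Sym.Main

/-!
# The Dedekind inequality for involutions of the symmetric group
-/

set_option autoImplicit false

open MvPolynomial Equiv Equiv.Perm

open Pool.Agent.Helper70.Sym Pool.Agent.Helper13.Ded

noncomputable section

namespace Pool.Agent.Helper70.Inv

/-- The sum of the coefficients. -/
def eps : R →ₐ[ℂ] ℂ := aeval fun _ => 1

theorem eps_C (c : ℂ) : eps (C c) = c := by
  rw [← algebraMap_eq, AlgHom.commutes]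
  rfl

theorem eps_mon {α : Type} [Fintype α] [DecidableEq α] (σ : Perm α) : eps (mon σ) = 1 := by
  unfold mon
  have h : ∀ s : Multiset ℕ, eps (s.map X).prod = 1 := by
    intro s
    induction s using Multiset.induction_on with
    | empty => simp
    | cons a s ih =>
      rw [Multiset.map_cons, Multiset.prod_cons, map_mul, ih, mul_one]
      simp [eps]
  rw [map_mul, h, map_pow, one_mul]
  simp [eps]

theorem eps_Z {Γ α : Type} [Group Γ] [Fintype Γ] [Fintype α] [DecidableEq α]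
    (ρ : Γ →* Perm α) (ψ : Γ →* ℂˣ) (h : ψ ≠ 1 → False) : eps (Z ρ ψ) = 1 := by
  have hψ : ψ = 1 := by
    by_contra hcon
    exact h hcon
  subst hψ
  unfold Z
  rw [map_mul, eps_C, map_sum]
  have h1 : ∀ γ : Γ, eps (C ((((1 : Γ →* ℂˣ) γ : ℂˣ) : ℂ)) * mon (ρ γ)) = 1 := by
    intro γ
    rw [map_mul, eps_C, eps_mon]
    simp
  rw [Finset.sum_congr rfl fun γ _ => h1 γ, Finset.sum_const, Finset.card_univ, nsmul_eq_mul,
    mul_one, inv_mul_cancel₀]
  exact_mod_cast Fintype.card_ne_zero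

theorem sum_char {Γ : Type} [Group Γ] [Fintype Γ] (ψ : Γ →* ℂˣ) (h : ψ ≠ 1) :
    ∑ γ, ((ψ γ : ℂˣ) : ℂ) = 0 := by
  obtain ⟨g, hg⟩ : ∃ g, ψ g ≠ 1 := by
    by_contra hcon
    push Not at hcon
    exact h (MonoidHom.ext hcon)
  have h1 : ∑ γ, ((ψ γ : ℂˣ) : ℂ) = ((ψ g : ℂˣ) : ℂ) * ∑ γ, ((ψ γ : ℂˣ) : ℂ) := by
    rw [Finset.mul_sum, ← Equiv.sum_comp (Equiv.mulLeft g)]
    refine Finset.sum_congr rfl fun γ _ => ?_
    rw [Equiv.coe_mulLeft, map_mul, Units.val_mul]
  have h2 : (((ψ g : ℂˣ) : ℂ) - 1) * ∑ γ, ((ψ γ : ℂˣ) : ℂ) = 0 := by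
    rw [sub_mul, one_mul, ← h1, sub_self]
  rcases mul_eq_zero.1 h2 with h3 | h3
  · exfalso
    apply hg
    refine Units.ext ?_
    rw [Units.val_one]
    exact sub_eq_zero.1 h3
  · exact h3

theorem eps_Z' {Γ α : Type} [Group Γ] [Fintype Γ] [Fintype α] [DecidableEq α]
    (ρ : Γ →* Perm α) (ψ : Γ →* ℂˣ) (h : ψ ≠ 1) : eps (Z ρ ψ) = 0 := by
  unfold Z
  rw [map_mul, eps_C, map_sum]
  have h1 : ∀ γ : Γ, eps (C (((ψ γ : ℂˣ) : ℂ)) * mon (ρ γ)) = ((ψ γ : ℂˣ) : ℂ) := by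
    intro γ
    rw [map_mul, eps_C, eps_mon, mul_one]
  rw [Finset.sum_congr rfl fun γ _ => h1 γ, sum_char ψ h, mul_zero]

theorem cone_true_aux {n : ℕ} {f : R} (h : Cone false n f) :
    ∃ c : ℝ, 0 ≤ c ∧ eps f = (c : ℂ) ∧ (c = 0 → Cone true n f) := by
  induction h with
  | zero n => exact ⟨0, le_rfl, by simp, fun _ => Cone.zero n⟩
  | add n f g _ _ hf hg =>
    obtain ⟨c, hc, h1, h2⟩ := hf
    obtain ⟨d, hd, h3, h4⟩ := hg
    refine ⟨c + d, add_nonneg hc hd, by rw [map_add, h1, h3]; push_cast; rfl, fun h => ?_⟩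
    exact Cone.add _ _ _ (h2 (by linarith)) (h4 (by linarith))
  | smul n r f hr _ hf =>
    obtain ⟨c, hc, h1, h2⟩ := hf
    refine ⟨r * c, mul_nonneg hr hc, by rw [map_mul, eps_C, h1]; push_cast; rfl, fun h => ?_⟩
    rcases mul_eq_zero.1 h with h3 | h3
    · subst h3
      have : (C ((0 : ℝ) : ℂ) * f : R) = 0 := by simp
      rw [this]
      exact Cone.zero n
    · exact Cone.smul _ _ _ hr (h2 h3)
  | gen Γ α ρ ψ n hn h =>
    by_cases hψ : ψ = 1
    · exact ⟨1, zero_le_one, by rw [eps_Z ρ ψ fun h => h hψ]; simp, fun h => absurd h one_ne_zero⟩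
    · exact ⟨0, le_rfl, by rw [eps_Z' ρ ψ hψ]; simp, fun _ => Cone.gen _ _ _ _ _ hn fun _ => hψ⟩

/-- An element of the cone without trivial constituent. -/
theorem cone_true_of {n : ℕ} {f : R} (h : Cone false n f) (h0 : eps f = 0) : Cone true n f := by
  obtain ⟨c, _, h1, h2⟩ := cone_true_aux h
  refine h2 ?_
  rw [h0] at h1
  exact_mod_cast h1.symm

/-- The main inequality. -/
theorem nc_main (n k : ℕ) (h : 2 * k ≤ n) :
    NC n (C (1 / 2 : ℂ) * (X 1 ^ n + X 2 ^ k * X 1 ^ (n - 2 * k)) - hn n) := by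
  obtain ⟨j, rfl⟩ := Nat.exists_eq_add_of_le h
  have h1 : NC (2 * k + j) (Gk k * X 1 ^ j - PowerSeries.coeff (2 * k) To * X 1 ^ j) := by
    rw [← sub_mul]
    have := (nc_even k).mul ((NC.X1).pow j)
    rwa [mul_one] at this
  have h2 := nc_steps (2 * k) j
  have h3 := nc_To_sub (2 * k + j)
  have h4 := NC.add _ _ _ (NC.add _ _ _ h1 h2) h3
  have h5 : (Gk k * X 1 ^ j - PowerSeries.coeff (2 * k) To * X 1 ^ j
      + (X 1 ^ j * PowerSeries.coeff (2 * k) To - PowerSeries.coeff (2 * k + j) To)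
      + (PowerSeries.coeff (2 * k + j) To - hn (2 * k + j)) : R)
      = C (1 / 2 : ℂ) * (X 1 ^ (2 * k + j) + X 2 ^ k * X 1 ^ (2 * k + j - 2 * k))
        - hn (2 * k + j) := by
    rw [Nat.add_sub_cancel_left, Gk, pow_add]
    ring
  rwa [h5] at h4

theorem eps_hn (n : ℕ) : eps (hn n) = 1 := eps_Z _ _ fun h => h rfl

theorem cone_main_inv (n k : ℕ) (h : 2 * k ≤ n) :
    Cone true n (C (1 / 2 : ℂ) * (X 1 ^ n + X 2 ^ k * X 1 ^ (n - 2 * k)) - hn n) := by
  refine cone_true_of (nc_main n k h).toCone ?_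
  rw [map_sub, eps_hn, map_mul, eps_C]
  have h1 : ∀ j, eps (X j) = 1 := fun j => by simp [eps]
  rw [map_add, map_mul, map_pow, map_pow, map_pow, h1, h1]
  norm_num

theorem mon_invol {α : Type} [Fintype α] [DecidableEq α] (τ : Perm α) (h : τ ^ 2 = 1) :
    ∃ k, 2 * k ≤ Fintype.card α ∧ mon τ = X 2 ^ k * X 1 ^ (Fintype.card α - 2 * k) := by
  have h1 : ∀ a ∈ τ.cycleType, a = 2 := by
    intro a ha
    have h2 := two_le_of_mem_cycleType ha
    have h3 := (dvd_of_mem_cycleType ha).trans (orderOf_dvd_of_pow_eq_one h)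
    exact le_antisymm (Nat.le_of_dvd two_pos h3) h2
  have h2 : τ.cycleType = Multiset.replicate (Multiset.card τ.cycleType) 2 :=
    Multiset.eq_replicate.2 ⟨rfl, h1⟩
  have h3 : τ.support.card = 2 * Multiset.card τ.cycleType := by
    rw [← sum_cycleType, h2]
    simp [mul_comm]
  refine ⟨Multiset.card τ.cycleType, ?_, ?_⟩
  · rw [← h3]
    exact Finset.card_le_univ _
  · unfold mon
    rw [h3]
    congr 1
    conv_lhs => rw [h2]
    simp

/-- The Dedekind inequality for the subgroup generated by an involution. -/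
theorem ded_inv {n : ℕ} (τ : Perm (Fin n)) (hτ : τ ^ 2 = 1) : Ded (Subgroup.zpowers τ) := by
  by_cases h1 : τ = 1
  · have : Subgroup.zpowers τ = ⊥ := by rw [h1, Subgroup.zpowers_one_eq_bot]
    rw [this]
    exact ded_bot
  intro θ hθ
  obtain ⟨k, hk, hmon⟩ := mon_invol τ hτ
  rw [Fintype.card_fin] at hk hmon
  have h1' := Th_nonneg θ hθ (cone_main_inv n k hk)
  have hm1 : (X 1 ^ n : R) = mon (1 : Perm (Fin n)) := by rw [mon_one, Fintype.card_fin]
  have hh : Th θ (hn n) = (((∑ σ, θ σ) / n.factorial : ℝ) : ℂ) := by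
    have h2 := Th_Z θ hθ (MonoidHom.id (Perm (Fin n))) 1 (Equiv.refl _)
    rw [hn, h2, Fintype.card_perm, Fintype.card_fin]
    push_cast
    rw [div_eq_inv_mul]
    congr 1
    refine Finset.sum_congr rfl fun σ _ => ?_
    have h3 : (Equiv.refl (Fin n)).permCongr ((MonoidHom.id (Perm (Fin n))) σ) = σ := by
      ext x
      rfl
    rw [h3]
    simp
  rw [map_sub, Th_C_mul, map_add, hm1, ← hmon, Th_mon θ hθ, Th_mon θ hθ, hh] at h1'
  have h3 : ((1 / 2 : ℂ) * ((θ 1 : ℂ) + (θ τ : ℂ)) - (((∑ σ, θ σ) / n.factorial : ℝ) : ℂ)).re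
      = (θ 1 + θ τ) / 2 - (∑ σ, θ σ) / n.factorial := by
    rw [Complex.sub_re, Complex.ofReal_re]
    congr 1
    have : (1 / 2 : ℂ) * ((θ 1 : ℂ) + (θ τ : ℂ)) = (((θ 1 + θ τ) / 2 : ℝ) : ℂ) := by
      push_cast
      ring
    rw [this, Complex.ofReal_re]
  rw [h3] at h1'
  have h4 : av θ = (∑ σ, θ σ) / n.factorial := by
    unfold av
    rw [finsum_eq_sum_of_fintype, Nat.card_eq_fintype_card, Fintype.card_perm, Fintype.card_fin]
  have h5 : av (fun h : Subgroup.zpowers τ => θ h) = (θ 1 + θ τ) / 2 := by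
    unfold av
    have hord : orderOf τ = 2 := orderOf_eq_prime hτ h1
    have hset : ((Subgroup.zpowers τ : Subgroup (Perm (Fin n))) : Set (Perm (Fin n))) = {1, τ} := by
      ext σ
      rw [SetLike.mem_coe, Set.mem_insert_iff, Set.mem_singleton_iff]
      constructor
      · intro h
        rw [mem_zpowers_iff_mem_range_orderOf, hord] at h
        simp only [Finset.mem_image, Finset.mem_range] at h
        obtain ⟨k, hk, rfl⟩ := h
        interval_cases k
        · left; simp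
        · right; simp
      · rintro (rfl | rfl)
        · exact one_mem _
        · exact Subgroup.mem_zpowers _
    have hne : (1 : Perm (Fin n)) ≠ τ := fun h => h1 h.symm
    have h6 : ∑ᶠ h : Subgroup.zpowers τ, θ h = ∑ᶠ h ∈ ({1, τ} : Set (Perm (Fin n))), θ h := by
      rw [← hset]
      exact finsum_set_coe_eq_finsum_mem _
    rw [h6, finsum_mem_pair hne, Nat.card_zpowers, hord]
    norm_num
  rw [h4, h5]
  linarith

end Pool.Agent.Helper70.Inv
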