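import Pool.Agent.Helper70.Inv.FE

/-!
# The characteristic of the Lie representation
-/

set_option autoImplicit false

open MvPolynomial Equiv Equiv.Perm

open Pool.Agent.Helper70.Sym

noncomputable section

namespace Pool.Agent.Helper70.Inv

section lie

variable (n : ℕ) [NeZero n]

instance fintypeRoots : Fintype (rootsOfUnity n ℂ) := Fintype.ofFinite _

theorem card_roots : Fintype.card (rootsOfUnity n ℂ) = n := by
  rw [← Nat.card_eq_fintype_card, Complex.card_rootsOfUnity]

/-- The regular representation of the group of roots of unity. -/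
def regC : rootsOfUnity n ℂ →* Perm (rootsOfUnity n ℂ) := MulAction.toPermHom _ _

omit [NeZero n] in
theorem regC_pow_apply (z x : rootsOfUnity n ℂ) (j : ℕ) : (regC n z ^ j) x = z ^ j * x := by
  rw [← map_pow]
  rfl

open scoped Classical in
/-- The polynomial attached to a faithful linear character of a regular cyclic group. -/
def Lie : R := Z (regC n) (Subgroup.subtype (rootsOfUnity n ℂ))

theorem nc_Lie : NC n (Lie n) :=
  NC.gen _ _ _ _ _ (card_roots n)

open scoped Classical in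
theorem mon_regC (z : rootsOfUnity n ℂ) :
    mon (regC n z) = X (orderOf z) ^ (n / orderOf z) := by
  have h0 : 0 < orderOf z := orderOf_pos z
  obtain ⟨m, hm, hc⟩ := mon_uniform (regC n z) (orderOf z) h0 (by
    intro x j
    rw [regC_pow_apply, mul_eq_right, orderOf_dvd_iff_pow_eq_one])
  rw [card_roots] at hc
  have h1 : n / orderOf z = m := Nat.div_eq_of_eq_mul_left h0 hc
  rw [hm, h1]

/-- The sum of the primitive roots of unity. -/
def cc (d : ℕ) : ℂ := ∑ z ∈ primitiveRoots d ℂ, z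

theorem sum_cc (m : ℕ) (hm : m ≠ 0) : ∑ d ∈ m.divisors, cc d = if m = 1 then 1 else 0 := by
  classical
  have h1 : ∑ d ∈ m.divisors, cc d = ∑ z ∈ Polynomial.nthRootsFinset m (1 : ℂ), z := by
    rw [IsPrimitiveRoot.nthRoots_one_eq_biUnion_primitiveRoots, Finset.sum_biUnion]
    · rfl
    · intro a _ b _ hab
      exact IsPrimitiveRoot.disjoint hab
  rw [h1]
  have hz := Complex.isPrimitiveRoot_exp m hm
  have h2 : ∑ z ∈ Polynomial.nthRootsFinset m (1 : ℂ), z
      = ∑ i ∈ Finset.range m, (Complex.exp (2 * Real.pi * Complex.I / m)) ^ i := by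
    symm
    refine Finset.sum_bij (fun i _ => (Complex.exp (2 * Real.pi * Complex.I / m)) ^ i) ?_ ?_ ?_
      (fun i _ => rfl)
    · intro i _
      rw [Polynomial.mem_nthRootsFinset (Nat.pos_of_ne_zero hm), ← pow_mul, mul_comm i m, pow_mul,
        hz.pow_eq_one, one_pow]
    · intro i hi j hj hij
      exact hz.pow_inj (Finset.mem_range.1 hi) (Finset.mem_range.1 hj) hij
    · intro z hz'
      rw [Polynomial.mem_nthRootsFinset (Nat.pos_of_ne_zero hm)] at hz'
      have : NeZero m := ⟨hm⟩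
      obtain ⟨i, hi, h⟩ := hz.eq_pow_of_pow_eq_one hz'
      exact ⟨i, Finset.mem_range.2 hi, h⟩
  rw [h2]
  split_ifs with h
  · subst h
    simp
  · exact hz.geom_sum_eq_zero (by omega)

theorem n_mul_Lie : (n : R) * Lie n = ∑ d ∈ n.divisors, C (cc d) * X d ^ (n / d) := by
  classical
  have hn : (n : ℂ) ≠ 0 := by exact_mod_cast NeZero.ne n
  have h1 : (n : R) * Lie n = ∑ z : rootsOfUnity n ℂ,
      C (((z : ℂˣ) : ℂ)) * X (orderOf ((z : ℂˣ) : ℂ)) ^ (n / orderOf ((z : ℂˣ) : ℂ)) := by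
    have h2 : Lie n = C ((Fintype.card (rootsOfUnity n ℂ) : ℂ)⁻¹) *
      ∑ z : rootsOfUnity n ℂ, C (((z : ℂˣ) : ℂ)) * mon (regC n z) := rfl
    rw [h2, card_roots, ← mul_assoc]
    have h3 : (n : R) = C (n : ℂ) := by simp
    rw [h3, ← C_mul, mul_inv_cancel₀ hn, C_1, one_mul]
    refine Finset.sum_congr rfl fun z _ => ?_
    rw [mon_regC, orderOf_units, Subgroup.orderOf_coe]
  have h2 : ∑ z : rootsOfUnity n ℂ,
      (C (((z : ℂˣ) : ℂ)) * X (orderOf ((z : ℂˣ) : ℂ)) ^ (n / orderOf ((z : ℂˣ) : ℂ)) : R)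
      = ∑ z ∈ Polynomial.nthRootsFinset n (1 : ℂ), C z * X (orderOf z) ^ (n / orderOf z) := by
    refine Finset.sum_bij (fun z _ => ((z : ℂˣ) : ℂ)) ?_ ?_ ?_ (fun z _ => rfl)
    · intro z _
      rw [Polynomial.mem_nthRootsFinset (NeZero.pos n)]
      have := z.2
      rw [mem_rootsOfUnity'] at this
      exact this
    · intro z _ w _ h
      exact Subtype.ext (Units.ext h)
    · intro z hz
      rw [Polynomial.mem_nthRootsFinset (NeZero.pos n)] at hz
      refine ⟨rootsOfUnity.mkOfPowEq z hz, Finset.mem_univ _, ?_⟩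
      exact rootsOfUnity.coe_mkOfPowEq hz
  rw [h1, h2, IsPrimitiveRoot.nthRoots_one_eq_biUnion_primitiveRoots, Finset.sum_biUnion]
  · refine Finset.sum_congr rfl fun d hd => ?_
    rw [cc, map_sum, Finset.sum_mul]
    refine Finset.sum_congr rfl fun z hz => ?_
    have h3 : orderOf z = d := by
      rw [mem_primitiveRoots (Nat.pos_of_mem_divisors hd)] at hz
      exact hz.eq_orderOf.symm
    rw [h3]
  · intro a _ b _ hab
    exact IsPrimitiveRoot.disjoint hab

end lie

open scoped Classical in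
/-- The coefficients of the logarithmic derivative. -/
def LieT (n j : ℕ) : R := if h : n = 0 then 0 else
  if n ∣ j then (n : R) * psi (j / n) (@Lie n ⟨h⟩) else 0

theorem sum_LieT (J : ℕ) (hJ : J ≠ 0) : ∑ n ∈ J.divisors, LieT n J = X 1 ^ J := by
  classical
  have h1 : ∑ n ∈ J.divisors, LieT n J
      = ∑ n ∈ J.divisors, ∑ d ∈ n.divisors, C (cc d) * X (J / n * d) ^ (n / d) := by
    refine Finset.sum_congr rfl fun n hn => ?_
    have hn0 : n ≠ 0 := (Nat.pos_of_mem_divisors hn).ne'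
    have : NeZero n := ⟨hn0⟩
    rw [LieT, dif_neg hn0, if_pos (Nat.dvd_of_mem_divisors hn)]
    have h2 : (n : R) = psi (J / n) (n : R) := by simp
    rw [h2, ← map_mul, n_mul_Lie, map_sum]
    refine Finset.sum_congr rfl fun d _ => ?_
    rw [map_mul, psi_C, map_pow, psi_X]
  have h2 : ∑ n ∈ J.divisors, ∑ d ∈ n.divisors, (C (cc d) * X (J / n * d) ^ (n / d) : R)
      = ∑ m ∈ J.divisors, ∑ d ∈ (J / m).divisors, C (cc d) * X (J / m) ^ m := by
    rw [Finset.sum_sigma', Finset.sum_sigma']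
    refine Finset.sum_bij' (fun p _ => ⟨p.1 / p.2, p.2⟩) (fun p _ => ⟨p.1 * p.2, p.2⟩)
      ?_ ?_ ?_ ?_ ?_
    · rintro ⟨n, d⟩ h
      simp only [Finset.mem_sigma, Nat.mem_divisors] at h ⊢
      obtain ⟨⟨⟨a, rfl⟩, _⟩, ⟨m, rfl⟩, hdm⟩ := h
      have hd0 : 0 < d := Nat.pos_of_ne_zero fun h => by simp [h] at hdm
      have hm0 : 0 < m := Nat.pos_of_ne_zero fun h => by simp [h] at hdm
      have ha0 : 0 < a := Nat.pos_of_ne_zero fun h => by simp [h] at hJ
      rw [Nat.mul_div_cancel_left _ hd0]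
      refine ⟨⟨⟨d * a, by ring⟩, hJ⟩, ?_, ?_⟩
      · rw [show d * m * a = d * a * m by ring, Nat.mul_div_cancel _ hm0]
        exact Nat.dvd_mul_right d a
      · rw [show d * m * a = d * a * m by ring, Nat.mul_div_cancel _ hm0]
        positivity
    · rintro ⟨m, d⟩ h
      simp only [Finset.mem_sigma, Nat.mem_divisors] at h ⊢
      obtain ⟨⟨⟨a, rfl⟩, _⟩, h1, h2⟩ := h
      have hm0 : 0 < m := Nat.pos_of_ne_zero fun h => by simp [h] at hJ
      rw [Nat.mul_div_cancel_left _ hm0] at h1 h2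
      obtain ⟨b, rfl⟩ := h1
      have hd0 : d ≠ 0 := fun h => by simp [h] at h2
      refine ⟨⟨⟨b, by ring⟩, hJ⟩, ⟨m, by ring⟩, ?_⟩
      have := hm0.ne'
      positivity
    · rintro ⟨n, d⟩ h
      simp only [Finset.mem_sigma, Nat.mem_divisors] at h
      rw [Nat.div_mul_cancel h.2.1]
    · rintro ⟨m, d⟩ h
      simp only [Finset.mem_sigma, Nat.mem_divisors] at h
      have hd0 : 0 < d := Nat.pos_of_ne_zero fun h' => by
        obtain ⟨_, h1, h2⟩ := h
        rw [h', zero_dvd_iff] at h1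
        exact h2 h1
      simp only [Nat.mul_div_cancel _ hd0]
    · rintro ⟨n, d⟩ h
      simp only [Finset.mem_sigma, Nat.mem_divisors] at h ⊢
      obtain ⟨⟨⟨a, rfl⟩, _⟩, ⟨m, rfl⟩, hdm⟩ := h
      have hd0 : 0 < d := Nat.pos_of_ne_zero fun h => by simp [h] at hdm
      have hm0 : 0 < m := Nat.pos_of_ne_zero fun h => by simp [h] at hdm
      rw [Nat.mul_div_cancel_left _ hd0, Nat.mul_div_cancel_left _ (Nat.mul_pos hd0 hm0),
        show d * m * a = a * d * m by ring, Nat.mul_div_cancel _ hm0]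
  rw [h1, h2]
  have h3 : ∀ m ∈ J.divisors, ∑ d ∈ (J / m).divisors, (C (cc d) * X (J / m) ^ m : R)
      = if m = J then X 1 ^ J else 0 := by
    intro m hm
    have hmJ := Nat.dvd_of_mem_divisors hm
    have hm0 := Nat.pos_of_mem_divisors hm
    obtain ⟨a, rfl⟩ := hmJ
    rw [Nat.mul_div_cancel_left _ hm0, ← Finset.sum_mul, ← map_sum, sum_cc a (by
      rintro rfl
      simp at hJ)]
    by_cases ha : a = 1
    · subst ha
      simp
    · rw [if_neg ha, if_neg]
      · simp
      · intro h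
        apply ha
        have : m * 1 = m * a := by rw [mul_one]; exact h
        exact (Nat.eq_of_mul_eq_mul_left hm0 this).symm
  rw [Finset.sum_congr rfl h3, Finset.sum_ite_eq' , if_pos (Nat.mem_divisors_self J hJ)]

end Pool.Agent.Helper70.Inv
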