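import Pool.Agent.Helper70.Sym.Cone

/-!
# Cycle polynomials of general wreath products
-/

set_option autoImplicit false

open MvPolynomial Equiv Equiv.Perm

open Pool.Agent.Helper70.Sym

noncomputable section

namespace Pool.Agent.Helper70.Inv

/-- The homomorphism `X j ↦ X (k j)`. -/
def psi (k : ℕ) : R →ₐ[ℂ] R := aeval fun j => X (k * j)

theorem psi_X (k j : ℕ) : psi k (X j) = X (k * j) := by simp [psi]

theorem psi_C (k : ℕ) (c : ℂ) : psi k (C c) = C c := by
  rw [← algebraMap_eq, AlgHom.commutes]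

theorem psi_psi (k l : ℕ) (f : R) : psi k (psi l f) = psi (k * l) f := by
  induction f using MvPolynomial.induction_on with
  | C a => simp
  | add p q hp hq => simp [hp, hq]
  | mul_X p n hp => simp [hp, psi_X, mul_assoc]

theorem psi_one (f : R) : psi 1 f = f := by
  induction f using MvPolynomial.induction_on with
  | C a => simp
  | add p q hp hq => simp [hp, hq]
  | mul_X p n hp => simp [hp, psi_X]

/-- The plethysm by `f`, the homomorphism `X k ↦ psi k f`. -/
def pl (f : R) : R →ₐ[ℂ] R := aeval fun k => psi k f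

theorem pl_X (f : R) (k : ℕ) : pl f (X k) = psi k f := by simp [pl]

theorem pl_C (f : R) (c : ℂ) : pl f (C c) = C c := by
  rw [← algebraMap_eq, AlgHom.commutes]

section perm

variable {α Y : Type}

/-- The twist of `σ` by permutations. -/
def twp (σ : Perm α) (v : α → Perm Y) : Perm (α × Y) where
  toFun p := (σ p.1, v p.1 p.2)
  invFun p := (σ.symm p.1, (v (σ.symm p.1)).symm p.2)
  left_inv p := by simp
  right_inv p := by simp

theorem twp_apply (σ : Perm α) (v : α → Perm Y) (x : α) (y : Y) :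
    twp σ v (x, y) = (σ x, v x y) := rfl

/-- The products of the twists along the orbit of `x`. -/
def gp {B : Type} [Group B] (σ : Perm α) (v : α → B) (x : α) : ℕ → B
  | 0 => 1
  | i + 1 => v ((σ ^ i) x) * gp σ v x i

theorem twp_pow_apply (σ : Perm α) (v : α → Perm Y) (x : α) (y : Y) (i : ℕ) :
    (twp σ v ^ i) (x, y) = ((σ ^ i) x, gp σ v x i y) := by
  induction i with
  | zero => simp [gp]
  | succ i ih => rw [pow_succ', mul_apply, ih, twp_apply, pow_succ', mul_apply, gp, mul_apply]

variable [Fintype α] [DecidableEq α]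

omit [DecidableEq α] in
theorem isCycleOn_univ (σ : Perm α) (hσ : ∀ x y, σ.SameCycle x y) :
    σ.IsCycleOn (Finset.univ : Finset α) := by
  refine ⟨by simp, fun a _ b _ => hσ a b⟩

/-- The twist concentrated at one place. -/
def single (σ : Perm α) (x₀ : α) (g : Perm Y) (x : α) : Perm Y := if σ x = x₀ then g else 1

omit [DecidableEq α] in
theorem exists_index (σ : Perm α) (hσ : ∀ x y, σ.SameCycle x y) (x₀ : α) :
    ∃ i : α → ℕ, (∀ x, i x < Fintype.card α) ∧ (∀ x, (σ ^ i x) x₀ = x) ∧
      (∀ x, σ x ≠ x₀ → i (σ x) = i x + 1) ∧ (∀ x, σ x = x₀ → i (σ x) = 0 ∧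
        i x + 1 = Fintype.card α) := by
  have hc := isCycleOn_univ σ hσ
  have h1 : ∀ x, ∃ n, n < Fintype.card α ∧ (σ ^ n) x₀ = x := by
    intro x
    obtain ⟨n, hn, h⟩ := hc.exists_pow_eq (Finset.mem_univ x₀) (Finset.mem_univ x)
    exact ⟨n, by rwa [Finset.card_univ] at hn, h⟩
  choose i hi hx using h1
  have huniq : ∀ m n, m < Fintype.card α → n < Fintype.card α → (σ ^ m) x₀ = (σ ^ n) x₀ → m = n := by
    intro m n hm hn h
    have := (hc.pow_apply_eq_pow_apply (Finset.mem_univ x₀)).1 h
    rw [Finset.card_univ, Nat.ModEq, Nat.mod_eq_of_lt hm, Nat.mod_eq_of_lt hn] at this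
    exact this
  have hcard : (σ ^ Fintype.card α) x₀ = x₀ := by
    have := hc.pow_apply_eq (Finset.mem_univ x₀) (n := Fintype.card α)
    rw [Finset.card_univ] at this
    exact this.2 dvd_rfl
  have hs : ∀ x, (σ ^ (i x + 1)) x₀ = σ x := by
    intro x
    rw [pow_succ', mul_apply, hx]
  refine ⟨i, hi, hx, ?_, ?_⟩
  · intro x hne
    have h2 : i x + 1 < Fintype.card α := by
      rcases Nat.lt_or_eq_of_le (Nat.succ_le_of_lt (hi x)) with h | h
      · exact h
      · exfalso
        apply hne
        rw [← hs x]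
        have : i x + 1 = Fintype.card α := h
        rw [this, hcard]
    refine huniq _ _ (hi _) h2 ?_
    rw [hx, hs]
  · intro x he
    have h3 : i (σ x) = 0 := by
      refine huniq _ _ (hi _) ((Nat.zero_le _).trans_lt (hi x)) ?_
      rw [hx, he]
      rfl
    refine ⟨h3, ?_⟩
    rcases Nat.lt_or_eq_of_le (Nat.succ_le_of_lt (hi x)) with h | h
    · exfalso
      have := huniq (i x + 1) 0 h ((Nat.zero_le _).trans_lt (hi x)) (by rw [hs, he]; rfl)
      omega
    · exact h

theorem mon_twp_single (σ : Perm α) (hσ : ∀ x y, σ.SameCycle x y) (x₀ : α) :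
    ∀ (Y : Type) [Fintype Y] [DecidableEq Y] (g : Perm Y),
      mon (twp σ (single σ x₀ g)) = psi (Fintype.card α) (mon g) := by
  refine perm_induction _ ?_ ?_ ?_ ?_
  · intro Y _ _ g hY
    rw [mon_empty, mon_empty, map_one]
  · intro Y _ _ g hY hg
    obtain ⟨i, hi, hx, hi1, hi2⟩ := exists_index σ hσ x₀
    have hgp : ∀ j, j < Fintype.card α → gp σ (single σ x₀ g) x₀ j = 1 := by
      intro j
      induction j with
      | zero => intro _; rfl
      | succ j ih =>
        intro hj
        rw [gp, ih (by omega), mul_one, single, if_neg]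
        intro h
        have hc := isCycleOn_univ σ hσ
        rw [← mul_apply, ← pow_succ'] at h
        have := (hc.pow_apply_eq (Finset.mem_univ x₀) (n := j + 1)).1 h
        rw [Finset.card_univ] at this
        have := Nat.le_of_dvd (by omega) this
        omega
    have hcard0 : 0 < Fintype.card α := (Nat.zero_le _).trans_lt (hi x₀)
    have hlast : ∀ y, (twp σ (single σ x₀ g) ^ Fintype.card α) (x₀, y) = (x₀, g y) := by
      intro y
      have hc := isCycleOn_univ σ hσ
      have h1 : (σ ^ Fintype.card α) x₀ = x₀ := by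
        have := hc.pow_apply_eq (Finset.mem_univ x₀) (n := Fintype.card α)
        rw [Finset.card_univ] at this
        exact this.2 dvd_rfl
      rw [twp_pow_apply, h1]
      congr 1
      obtain ⟨l, hl⟩ := Nat.exists_eq_succ_of_ne_zero hcard0.ne'
      rw [hl, Nat.succ_eq_add_one, gp, hgp l (by omega), mul_one, single, if_pos]
      rw [← mul_apply, ← pow_succ', ← Nat.succ_eq_add_one, ← hl, h1]
    have hall : ∀ x y, (twp σ (single σ x₀ g)).SameCycle (x₀, y) (x, y) := by
      intro x y
      refine ⟨i x, ?_⟩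
      rw [zpow_natCast, twp_pow_apply, hx, hgp _ (hi x)]
      rfl
    have hfib : ∀ y y', (twp σ (single σ x₀ g)).SameCycle (x₀, y) (x₀, y') := by
      intro y y'
      obtain ⟨n, hn⟩ := (hg y y').exists_nat_pow_eq
      have : ∀ n : ℕ, (twp σ (single σ x₀ g)).SameCycle (x₀, y) (x₀, (g ^ n) y) := by
        intro n
        induction n with
        | zero => exact SameCycle.refl _ _
        | succ n ih =>
          refine ih.trans ⟨Fintype.card α, ?_⟩
          rw [zpow_natCast, hlast, pow_succ', mul_apply]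
      have h2 := this n
      rwa [hn] at h2
    have htr : ∀ p q, (twp σ (single σ x₀ g)).SameCycle p q := by
      rintro ⟨x, y⟩ ⟨x', y'⟩
      exact ((hall x y).symm.trans (hfib y y')).trans (hall x' y')
    have hne : Nonempty (α × Y) := ⟨(x₀, Classical.choice hY)⟩
    rw [mon_transitive _ hne htr, mon_transitive g hY hg, psi_X, Fintype.card_prod]
  · intro Y Y' _ _ _ _ g g' hg hg'
    rw [mon_sumCongr, map_mul, ← hg, ← hg', ← mon_sumCongr,
      ← mon_permCongr (Equiv.prodSumDistrib α Y Y')]
    congr 1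
    ext p
    rcases p with ⟨x, y⟩ | ⟨x, y⟩
    · simp only [Equiv.permCongr_apply, Equiv.prodSumDistrib_symm_apply_left, twp_apply,
        Equiv.Perm.sumCongr_apply, Sum.map_inl]
      unfold single
      split_ifs <;> simp
    · simp only [Equiv.permCongr_apply, Equiv.prodSumDistrib_symm_apply_right, twp_apply,
        Equiv.Perm.sumCongr_apply, Sum.map_inr]
      unfold single
      split_ifs <;> simp
  · intro Y Y' _ _ _ _ e g hg
    rw [mon_permCongr, ← hg, ← mon_permCongr (Equiv.prodCongr (Equiv.refl α) e)]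
    congr 1
    refine Equiv.ext fun p => ?_
    obtain ⟨x, y⟩ := p
    simp only [Equiv.permCongr_apply, twp_apply, Equiv.prodCongr_symm, Equiv.prodCongr_apply,
      Equiv.refl_symm, Prod.map, Equiv.coe_refl, id]
    unfold single
    split_ifs <;> simp

/-- A twist over a transitive permutation is conjugate to a twist concentrated at one place. -/
theorem mon_twp_transitive {Y : Type} [Fintype Y] [DecidableEq Y] (σ : Perm α)
    (hσ : ∀ x y, σ.SameCycle x y) (x₀ : α) (v : α → Perm Y) :
    mon (twp σ v) = psi (Fintype.card α) (mon (gp σ v x₀ (Fintype.card α))) := by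
  obtain ⟨i, hi, hx, hi1, hi2⟩ := exists_index σ hσ x₀
  rw [← mon_twp_single σ hσ x₀]
  let u : α → Perm Y := fun x => gp σ v x₀ (i x)
  have key : (Equiv.prodCongrRight u).permCongr
      (twp σ (single σ x₀ (gp σ v x₀ (Fintype.card α)))) = twp σ v := by
    refine Equiv.ext fun p => ?_
    rw [Equiv.permCongr_apply]
    obtain ⟨q, rfl⟩ := (Equiv.prodCongrRight u).surjective p
    rw [Equiv.symm_apply_apply]
    obtain ⟨x, y⟩ := q
    have hv : v x * gp σ v x₀ (i x) = gp σ v x₀ (i x + 1) := by rw [gp, hx]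
    rw [Equiv.prodCongrRight_apply, twp_apply, twp_apply, Equiv.prodCongrRight_apply]
    congr 1
    by_cases h : σ x = x₀
    · obtain ⟨h1, h2⟩ := hi2 x h
      have h3 : u (σ x) = 1 := by
        change gp σ v x₀ (i (σ x)) = 1
        rw [h1]
        rfl
      rw [single, if_pos h, h3, one_apply, ← h2, ← hv]
      rfl
    · have h1 := hi1 x h
      have h3 : u (σ x) = gp σ v x₀ (i x + 1) := by
        change gp σ v x₀ (i (σ x)) = _
        rw [h1]
      rw [single, if_neg h, h3, one_apply, ← hv]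
      rfl
  rw [← key, mon_permCongr]

end perm

section sums

variable {Γ α B Y : Type} [Group B] [Fintype B] [Fintype Y] [DecidableEq Y]

omit [Fintype B] in
theorem gp_map {B' : Type} [Group B'] (f : B →* B') (σ : Perm α) (v : α → B) (x : α) (j : ℕ) :
    gp σ (fun x => f (v x)) x j = f (gp σ v x j) := by
  induction j with
  | zero => simp [gp]
  | succ j ih => rw [gp, gp, map_mul, ih]

theorem gp_prod {M : Type} [CommGroup M] [Fintype α] [DecidableEq α] (σ : Perm α)
    (hσ : ∀ x y, σ.SameCycle x y) (x₀ : α) (v : α → M) :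
    gp σ v x₀ (Fintype.card α) = ∏ x, v x := by
  have hc := isCycleOn_univ σ hσ
  have h1 : ∀ j, gp σ v x₀ j = ∏ i ∈ Finset.range j, v ((σ ^ i) x₀) := by
    intro j
    induction j with
    | zero => simp [gp]
    | succ j ih => rw [gp, ih, Finset.prod_range_succ, mul_comm]
  rw [h1]
  refine Finset.prod_bij (fun i _ => (σ ^ i) x₀) (fun i _ => Finset.mem_univ _) ?_ ?_
    (fun i _ => rfl)
  · intro i hi j hj hij
    have := (hc.pow_apply_eq_pow_apply (Finset.mem_univ x₀)).1 hij
    rw [Finset.card_univ, Nat.ModEq] at this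
    rwa [Nat.mod_eq_of_lt (Finset.mem_range.1 hi), Nat.mod_eq_of_lt (Finset.mem_range.1 hj)]
      at this
  · intro y _
    obtain ⟨n, hn, hy⟩ := hc.exists_pow_eq (Finset.mem_univ x₀) (Finset.mem_univ y)
    rw [Finset.card_univ] at hn
    exact ⟨n, Finset.mem_range.2 hn, hy⟩

omit [Fintype B] in
theorem gp_mulSingle [Fintype α] [DecidableEq α] (σ : Perm α)
    (hσ : ∀ x y, σ.SameCycle x y) (x₀ : α) (b : B) (v : α → B) :
    gp σ (Pi.mulSingle (σ.symm x₀) b * v) x₀ (Fintype.card α)
      = b * gp σ v x₀ (Fintype.card α) := by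
  have hc := isCycleOn_univ σ hσ
  have h0 : 0 < Fintype.card α := Fintype.card_pos_iff.2 ⟨x₀⟩
  obtain ⟨l, hl⟩ := Nat.exists_eq_succ_of_ne_zero h0.ne'
  have h1 : ∀ j, j ≤ l → gp σ (Pi.mulSingle (σ.symm x₀) b * v) x₀ j = gp σ v x₀ j := by
    intro j
    induction j with
    | zero => intro _; rfl
    | succ j ih =>
      intro hj
      rw [gp, gp, ih (by omega), Pi.mul_apply, Pi.mulSingle_eq_of_ne, one_mul]
      intro h
      have h2 : (σ ^ (j + 1)) x₀ = x₀ := by rw [pow_succ', mul_apply, h, apply_symm_apply]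
      have := (hc.pow_apply_eq (Finset.mem_univ x₀) (n := j + 1)).1 h2
      rw [Finset.card_univ] at this
      have := Nat.le_of_dvd (by omega) this
      omega
  have h2 : (σ ^ l) x₀ = σ.symm x₀ := by
    have := (hc.pow_apply_eq (Finset.mem_univ x₀) (n := Fintype.card α)).2
      (by rw [Finset.card_univ])
    rw [hl, Nat.succ_eq_add_one, pow_succ', mul_apply] at this
    rw [Equiv.eq_symm_apply, this]
  rw [hl, Nat.succ_eq_add_one, gp, gp, h1 l le_rfl, h2, Pi.mul_apply, Pi.mulSingle_eq_same,
    mul_assoc]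

theorem sum_gp {M : Type} [AddCommMonoid M] [Fintype α] [DecidableEq α] (σ : Perm α)
    (hσ : ∀ x y, σ.SameCycle x y) (x₀ : α) (F : B → M) :
    Fintype.card B • ∑ v : α → B, F (gp σ v x₀ (Fintype.card α))
      = Fintype.card B ^ Fintype.card α • ∑ b, F b := by
  have h1 : ∀ b : B, ∑ v : α → B, F (gp σ v x₀ (Fintype.card α))
      = ∑ v : α → B, F (b * gp σ v x₀ (Fintype.card α)) := by
    intro b
    rw [← Equiv.sum_comp (Equiv.mulLeft (Pi.mulSingle (σ.symm x₀) b))]
    refine Finset.sum_congr rfl fun v _ => ?_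
    rw [Equiv.coe_mulLeft, gp_mulSingle σ hσ]
  calc Fintype.card B • ∑ v : α → B, F (gp σ v x₀ (Fintype.card α))
      = ∑ b : B, ∑ v : α → B, F (b * gp σ v x₀ (Fintype.card α)) := by
        rw [← Finset.sum_congr rfl fun b _ => h1 b, Finset.sum_const, Finset.card_univ]
    _ = ∑ v : α → B, ∑ b : B, F (b * gp σ v x₀ (Fintype.card α)) := Finset.sum_comm
    _ = ∑ v : α → B, ∑ b : B, F b := by
        refine Finset.sum_congr rfl fun v _ => ?_
        exact Equiv.sum_comp (Equiv.mulRight (gp σ v x₀ (Fintype.card α))) F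
    _ = _ := by
        rw [Finset.sum_const, Finset.card_univ, Fintype.card_fun]

/-- The key lemma on cycle monomials of general wreath products. -/
theorem sum_mon_twp (ρ : B →* Perm Y) (χ : B →* ℂˣ) (α : Type) [Fintype α] [DecidableEq α]
    (σ : Perm α) :
    ∑ v : α → B, C ((∏ x, χ (v x) : ℂˣ) : ℂ) * mon (twp σ fun x => ρ (v x))
      = C ((Fintype.card B : ℂ) ^ Fintype.card α) * pl (Z ρ χ) (mon σ) := by
  revert α
  refine perm_induction _ ?_ ?_ ?_ ?_
  · intro α _ _ σ hα
    have h0 : IsEmpty (α × Y) := Prod.isEmpty_left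
    rw [mon_empty σ, Fintype.sum_unique, mon_empty, Fintype.card_eq_zero (α := α)]
    simp
  · intro α _ _ σ hα hσ
    obtain ⟨x₀⟩ := id hα
    have hB : (Fintype.card B : ℂ) ≠ 0 := by exact_mod_cast Fintype.card_ne_zero
    set F : B → R := fun b => C ((χ b : ℂˣ) : ℂ) * psi (Fintype.card α) (mon (ρ b)) with hF
    have h1 : ∑ v : α → B, C ((∏ x, χ (v x) : ℂˣ) : ℂ) * mon (twp σ fun x => ρ (v x))
        = ∑ v : α → B, F (gp σ v x₀ (Fintype.card α)) := by
      refine Finset.sum_congr rfl fun v _ => ?_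
      rw [mon_twp_transitive σ hσ x₀, gp_map, ← gp_prod σ hσ x₀ (fun x => χ (v x)), gp_map]
    have h2 := sum_gp σ hσ x₀ F
    have h3 : pl (Z ρ χ) (mon σ) = C ((Fintype.card B : ℂ)⁻¹) * ∑ b, F b := by
      rw [mon_transitive σ hα hσ, pl_X, Z, map_mul, psi_C, map_sum]
      congr 1
      refine Finset.sum_congr rfl fun b _ => ?_
      rw [map_mul, psi_C]
    rw [h1, h3]
    have h4 : ∑ v : α → B, F (gp σ v x₀ (Fintype.card α)) = C ((Fintype.card B : ℂ)⁻¹) *
        (Fintype.card B • ∑ v : α → B, F (gp σ v x₀ (Fintype.card α))) := by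
      rw [nsmul_eq_mul, ← mul_assoc]
      have h5 : (Fintype.card B : R) = C (Fintype.card B : ℂ) := by simp
      rw [h5, ← C_mul, inv_mul_cancel₀ hB, C_1, one_mul]
    rw [h4, h2, nsmul_eq_mul]
    push_cast
    rw [map_pow, map_natCast]
    ring
  · intro α β _ _ _ _ σ τ hσ hτ
    rw [mon_sumCongr, map_mul, Fintype.card_sum, pow_add, C_mul]
    have h1 : ∀ (v : α → B) (w : β → B), mon (twp (Perm.sumCongr σ τ)
        (fun x => ρ (Sum.elim v w x))) = mon (twp σ fun x => ρ (v x)) *
          mon (twp τ fun x => ρ (w x)) := by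
      intro v w
      rw [← mon_sumCongr, ← mon_permCongr (Equiv.sumProdDistrib α β Y).symm]
      congr 1
      ext p
      · obtain ⟨x | x, b⟩ := p <;> rfl
      · obtain ⟨x | x, b⟩ := p <;> rfl
    rw [← Equiv.sum_comp (Equiv.sumArrowEquivProdArrow α β B).symm, Fintype.sum_prod_type]
    calc _ = ∑ v : α → B, ∑ w : β → B,
          (C ((∏ x, χ (v x) : ℂˣ) : ℂ) * mon (twp σ fun x => ρ (v x))) *
          (C ((∏ x, χ (w x) : ℂˣ) : ℂ) * mon (twp τ fun x => ρ (w x))) := by
          refine Finset.sum_congr rfl fun v _ => Finset.sum_congr rfl fun w _ => ?_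
          have h2 : (Equiv.sumArrowEquivProdArrow α β B).symm (v, w) = Sum.elim v w := rfl
          rw [h2, h1, Fintype.prod_sum_type]
          simp only [Sum.elim_inl, Sum.elim_inr, Units.val_mul, C_mul]
          ring
      _ = _ := by
          rw [← Finset.sum_mul_sum, hσ, hτ]
          ring
  · intro α β _ _ _ _ e σ hσ
    rw [mon_permCongr, ← Fintype.card_congr e, ← hσ,
      ← Equiv.sum_comp (Equiv.arrowCongr e (Equiv.refl B))]
    refine Finset.sum_congr rfl fun v _ => ?_
    have h1 : ∏ x, χ ((Equiv.arrowCongr e (Equiv.refl B)) v x) = ∏ x, χ (v x) := by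
      rw [← Equiv.prod_comp e]
      simp
    rw [h1]
    congr 1
    rw [← mon_permCongr (Equiv.prodCongr e (Equiv.refl Y))]
    congr 1
    refine Equiv.ext fun p => ?_
    obtain ⟨x, y⟩ := p
    simp [twp]

end sums

end Pool.Agent.Helper70.Inv
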