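import Pool.Agent.Helper70.Inv.Wr
import Mathlib.RingTheory.PowerSeries.Expand

/-!
# Power series with coefficients in the cone
-/

set_option autoImplicit false

open PowerSeries

open Pool.Agent.Helper70.Sym

noncomputable section

namespace Pool.Agent.Helper70.Inv

/-- The second Adams operation on power series. -/
def Ps : PowerSeries R →+* PowerSeries R :=
  (PowerSeries.expand 2 two_ne_zero).toRingHom.comp (PowerSeries.map (psi 2).toRingHom)

theorem coeff_Ps (n : ℕ) (f : PowerSeries R) :
    coeff n (Ps f) = if 2 ∣ n then psi 2 (coeff (n / 2) f) else 0 := by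
  have h : coeff n (Ps f) = coeff n (PowerSeries.expand 2 two_ne_zero
      (PowerSeries.map (psi 2).toRingHom f)) := rfl
  rw [h, coeff_expand]
  split_ifs
  · rw [coeff_map]
    rfl
  · rfl

theorem coeff_Ps_two_mul (n : ℕ) (f : PowerSeries R) :
    coeff (2 * n) (Ps f) = psi 2 (coeff n f) := by
  rw [coeff_Ps, if_pos (Nat.dvd_mul_right 2 n), Nat.mul_div_cancel_left _ two_pos]

/-- One half. -/
def hf : PowerSeries R := PowerSeries.C (MvPolynomial.C (1 / 2 : ℂ))

theorem hf_two : hf * 2 = 1 := by
  have h : (2 : PowerSeries R) = PowerSeries.C 2 := by rw [map_ofNat]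
  rw [hf, h, ← map_mul, C_half, map_one]

/-- Half the sum of the square and of the second Adams operation. -/
def hS (f : PowerSeries R) : PowerSeries R := hf * (f ^ 2 + Ps f)

/-- Half the difference of the square and of the second Adams operation. -/
def eS (f : PowerSeries R) : PowerSeries R := hf * (f ^ 2 - Ps f)

theorem hS_add (f g : PowerSeries R) : hS (f + g) = hS f + hS g + f * g := by
  unfold hS
  rw [map_add]
  linear_combination (f * g) * hf_two

theorem eS_add (f g : PowerSeries R) : eS (f + g) = eS f + eS g + f * g := by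
  unfold eS
  rw [map_add]
  linear_combination (f * g) * hf_two

theorem hS_add_eS (f : PowerSeries R) : hS f + eS f = f ^ 2 := by
  unfold hS eS
  linear_combination f ^ 2 * hf_two

theorem hS_sub_eS (f : PowerSeries R) : hS f - eS f = Ps f := by
  unfold hS eS
  linear_combination Ps f * hf_two

theorem Ps_monomial (n : ℕ) (c : R) : Ps (monomial n c) = monomial (2 * n) (psi 2 c) := by
  ext1 m
  rw [coeff_Ps, coeff_monomial, coeff_monomial]
  by_cases h : m = 2 * n
  · rw [if_pos h, if_pos (h ▸ Nat.dvd_mul_right 2 n), if_pos (by omega)]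
  · rw [if_neg h]
    split_ifs with h1 h2
    · omega
    · rw [map_zero]
    · rfl

theorem hS_monomial (n : ℕ) (c : R) : hS (monomial n c) = monomial (2 * n) (h2 c) := by
  rw [hS, Ps_monomial, pow_two, monomial_mul_monomial, ← two_mul, ← map_add, hf,
    ← monomial_zero_eq_C_apply, monomial_mul_monomial, h2, zero_add, pow_two]

theorem eS_monomial (n : ℕ) (c : R) : eS (monomial n c) = monomial (2 * n) (e2 c) := by
  rw [eS, Ps_monomial, pow_two, monomial_mul_monomial, ← two_mul, ← map_sub, hf,
    ← monomial_zero_eq_C_apply, monomial_mul_monomial, e2, zero_add, pow_two]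

/-- The coefficients of index less than `r` vanish. -/
def Ord (r : ℕ) (f : PowerSeries R) : Prop := ∀ n < r, coeff n f = 0

theorem Ord.mono {r s : ℕ} {f : PowerSeries R} (h : Ord r f) (hs : s ≤ r) : Ord s f :=
  fun n hn => h n (hn.trans_le hs)

theorem Ord.zero' (f : PowerSeries R) : Ord 0 f := fun n hn => absurd hn (Nat.not_lt_zero n)

theorem Ord.add {r : ℕ} {f g : PowerSeries R} (hf : Ord r f) (hg : Ord r g) : Ord r (f + g) :=
  fun n hn => by rw [map_add, hf n hn, hg n hn, add_zero]

theorem Ord.sub {r : ℕ} {f g : PowerSeries R} (hf : Ord r f) (hg : Ord r g) : Ord r (f - g) :=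
  fun n hn => by rw [map_sub, hf n hn, hg n hn, sub_zero]

theorem Ord.mul {r s : ℕ} {f g : PowerSeries R} (hf : Ord r f) (hg : Ord s g) :
    Ord (r + s) (f * g) := by
  intro n hn
  rw [coeff_mul]
  refine Finset.sum_eq_zero fun p hp => ?_
  rw [Finset.HasAntidiagonal.mem_antidiagonal] at hp
  rcases Nat.lt_or_ge p.1 r with h | h
  · rw [hf _ h, zero_mul]
  · rw [hg p.2 (by omega), mul_zero]

theorem Ord.mul_left {r : ℕ} (f : PowerSeries R) {g : PowerSeries R} (hg : Ord r g) :
    Ord r (f * g) := by
  have := (Ord.zero' f).mul hg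
  rwa [zero_add] at this

theorem Ord.mul_right {r : ℕ} {f : PowerSeries R} (g : PowerSeries R) (hf : Ord r f) :
    Ord r (f * g) := by
  rw [mul_comm]
  exact hf.mul_left g

theorem Ord.Ps {r : ℕ} {f : PowerSeries R} (hf : Ord r f) : Ord (2 * r) (Ps f) := by
  intro n hn
  rw [coeff_Ps]
  split_ifs with h
  · rw [hf _ (by omega), map_zero]
  · rfl

theorem Ord.sq {r : ℕ} {f : PowerSeries R} (hf : Ord r f) : Ord (2 * r) (f ^ 2) := by
  rw [pow_two, two_mul]
  exact hf.mul hf

theorem Ord.hS {r : ℕ} {f : PowerSeries R} (hf : Ord r f) : Ord (2 * r) (hS f) :=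
  (hf.sq.add hf.Ps).mul_left _

theorem Ord.eS {r : ℕ} {f : PowerSeries R} (hf : Ord r f) : Ord (2 * r) (eS f) :=
  (hf.sq.sub hf.Ps).mul_left _

/-- The coefficients of index less than `N` belong to the cone. -/
def Pos (N : ℕ) (f : PowerSeries R) : Prop := ∀ n < N, NC n (coeff n f)

theorem Ord.pos {N : ℕ} {f : PowerSeries R} (h : Ord N f) : Pos N f := by
  intro n hn
  rw [h n hn]
  exact NC.zero n

theorem Pos.add {N : ℕ} {f g : PowerSeries R} (hf : Pos N f) (hg : Pos N g) : Pos N (f + g) := by
  intro n hn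
  rw [map_add]
  exact NC.add _ _ _ (hf n hn) (hg n hn)

theorem Pos.mul {N : ℕ} {f g : PowerSeries R} (hf : Pos N f) (hg : Pos N g) : Pos N (f * g) := by
  intro n hn
  rw [coeff_mul]
  refine NC.sum _ _ fun p hp => ?_
  rw [Finset.HasAntidiagonal.mem_antidiagonal] at hp
  exact ((hf p.1 (by omega)).mul (hg p.2 (by omega))).cast hp

theorem Pos.one (N : ℕ) : Pos N 1 := by
  intro n _
  rw [coeff_one]
  split_ifs with h
  · rw [h]
    exact NC.one
  · exact NC.zero n

theorem Pos.monomial (N n : ℕ) {c : R} (h : n < N → NC n c) : Pos N (monomial n c) := by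
  intro m hm
  rw [coeff_monomial]
  split_ifs with hmn
  · rw [hmn]
    exact h (hmn ▸ hm)
  · exact NC.zero m

theorem pos_quad (N : ℕ) : ∀ (M r : ℕ) (f : PowerSeries R), r + M = N → Ord r f → Pos N f →
    Pos N (hS f) ∧ Pos N (eS f) := by
  intro M
  induction M with
  | zero =>
    intro r f hr ho _
    rw [add_zero] at hr
    subst hr
    exact ⟨(ho.hS.mono (by omega)).pos, (ho.eS.mono (by omega)).pos⟩
  | succ M ih =>
    intro r f hr ho hp
    set g : PowerSeries R := PowerSeries.monomial r (coeff r f) with hg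
    set f' : PowerSeries R := f - g with hf'
    have hfg : f = g + f' := by rw [hf']; ring
    have hgc : ∀ n, coeff n g = if n = r then coeff r f else 0 := by
      intro n
      rw [hg, coeff_monomial]
    have ho' : Ord (r + 1) f' := by
      intro n hn
      rw [hf', map_sub, hgc]
      split_ifs with h
      · rw [h, sub_self]
      · rw [ho n (by omega), sub_zero]
    have hp' : Pos N f' := by
      intro n hn
      rw [hf', map_sub, hgc]
      split_ifs with h
      · rw [h, sub_self]
        exact NC.zero r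
      · rw [sub_zero]
        exact hp n hn
    have hpr : NC r (coeff r f) := hp r (by omega)
    have hpg : Pos N g := Pos.monomial N r fun _ => hpr
    obtain ⟨h1, h2⟩ := ih (r + 1) f' (by omega) ho' hp'
    rw [hfg, hS_add, eS_add]
    refine ⟨(Pos.add ?_ h1).add (hpg.mul hp'), (Pos.add ?_ h2).add (hpg.mul hp')⟩
    · rw [hg, hS_monomial]
      exact Pos.monomial N _ fun _ => hpr.h2
    · rw [hg, eS_monomial]
      exact Pos.monomial N _ fun _ => hpr.e2

theorem Pos.hS {N : ℕ} {f : PowerSeries R} (hf : Pos N f) : Pos N (hS f) :=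
  (pos_quad N N 0 f (zero_add N) (Ord.zero' f) hf).1

theorem Pos.eS {N : ℕ} {f : PowerSeries R} (hf : Pos N f) : Pos N (eS f) :=
  (pos_quad N N 0 f (zero_add N) (Ord.zero' f) hf).2

theorem Pos.geo {N : ℕ} {f g : PowerSeries R} (hf : Pos N f) (h0 : Ord 1 f)
    (h : (1 - f) * g = 1) : Pos N g := by
  have h1 : g = 1 + f * g := by linear_combination h
  intro n
  induction n using Nat.strong_induction_on with
  | _ n ih =>
    intro hn
    rw [h1, map_add]
    refine NC.add _ _ _ (Pos.one N n hn) ?_
    rw [coeff_mul]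
    refine NC.sum _ _ fun p hp => ?_
    rw [Finset.HasAntidiagonal.mem_antidiagonal] at hp
    rcases Nat.eq_zero_or_pos p.1 with h2 | h2
    · rw [h2, h0 0 one_pos, zero_mul]
      exact NC.zero n
    · exact ((hf p.1 (by omega)).mul (ih p.2 (by omega) (by omega))).cast hp

theorem exists_inv (f : PowerSeries R) (h : coeff 0 f = 1) : ∃ g : PowerSeries R, f * g = 1 :=
  ⟨invOfUnit f 1, mul_invOfUnit f 1 (by
    rw [← coeff_zero_eq_constantCoeff_apply, h]
    rfl)⟩

theorem exists_geo (f : PowerSeries R) (h : Ord 1 f) : ∃ g : PowerSeries R, (1 - f) * g = 1 :=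
  exists_inv _ (by rw [map_sub, h 0 one_pos, coeff_one, if_pos rfl, sub_zero])

theorem cancel_left {f g k : PowerSeries R} (h0 : coeff 0 f = 1) (h : f * g = f * k) : g = k := by
  obtain ⟨f', hf'⟩ := exists_inv f h0
  linear_combination f' * h - (g - k) * hf'

end Pool.Agent.Helper70.Inv
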