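import Pool.Agent.Helper70.Inv.Lie
import Pool.Agent.Helper70.Sym.Rec

/-!
# The series of averages of `2`-parts of permutations
-/

set_option autoImplicit false

open PowerSeries

open Pool.Agent.Helper70.Sym

noncomputable section

namespace Pool.Agent.Helper70.Inv

/-- The operator `f (t) ↦ φ (f) (t ^ n)`. -/
def Lam (n : ℕ) (hn : n ≠ 0) (φ : R →ₐ[ℂ] R) : PowerSeries R →+* PowerSeries R :=
  (PowerSeries.expand n hn).toRingHom.comp (PowerSeries.map φ.toRingHom)

theorem coeff_Lam (n : ℕ) (hn : n ≠ 0) (φ : R →ₐ[ℂ] R) (j : ℕ) (f : PowerSeries R) :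
    coeff j (Lam n hn φ f) = if n ∣ j then φ (coeff (j / n) f) else 0 := by
  have h : coeff j (Lam n hn φ f) = coeff j (PowerSeries.expand n hn
      (PowerSeries.map φ.toRingHom f)) := rfl
  rw [h, coeff_expand]
  split_ifs
  · rw [coeff_map]
    rfl
  · rfl

theorem theta_Lam (n : ℕ) (hn : n ≠ 0) (φ : R →ₐ[ℂ] R) (f : PowerSeries R) :
    theta (Lam n hn φ f) = PowerSeries.C (n : R) * Lam n hn φ (theta f) := by
  ext1 j
  rw [coeff_theta, coeff_C_mul, coeff_Lam, coeff_Lam]
  split_ifs with h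
  · obtain ⟨k, rfl⟩ := h
    rw [Nat.mul_div_cancel_left _ (Nat.pos_of_ne_zero hn), coeff_theta, map_mul, map_natCast]
    push_cast
    ring
  · rw [mul_zero, mul_zero]

theorem Ps_eq_Lam (f : PowerSeries R) : Ps f = Lam 2 two_ne_zero (psi 2) f := rfl

theorem theta_Ps (f : PowerSeries R) : theta (Ps f) = 2 * Ps (theta f) := by
  rw [Ps_eq_Lam, theta_Lam]
  congr 1

theorem theta_add (f g : PowerSeries R) : theta (f + g) = theta f + theta g := by
  ext1 n
  simp [coeff_theta, mul_add]

/-- Comparison of series with the same logarithmic derivative. -/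
theorem agree {f g a b : PowerSeries R} (N : ℕ) (hf : theta f = f * a) (hg : theta g = g * b)
    (h0 : coeff 0 f = coeff 0 g) (ha : coeff 0 a = 0) (hb : coeff 0 b = 0)
    (hab : ∀ j ≤ N, coeff j a = coeff j b) : ∀ j ≤ N, coeff j f = coeff j g := by
  intro j
  induction j using Nat.strong_induction_on with
  | _ j ih =>
    intro hj
    rcases Nat.eq_zero_or_pos j with h | h
    · rw [h, h0]
    · have h1 := congrArg (coeff j) hf
      have h2 := congrArg (coeff j) hg
      rw [coeff_theta, coeff_mul_range' _ _ _ ha] at h1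
      rw [coeff_theta, coeff_mul_range' _ _ _ hb] at h2
      have h3 : (j : R) ≠ 0 := Nat.cast_ne_zero.2 h.ne'
      refine mul_left_cancel₀ h3 ?_
      rw [h1, h2]
      refine Finset.sum_congr rfl fun i hi => ?_
      have hi' := Finset.mem_range.1 hi
      rw [ih _ (by omega) (by omega), hab _ (by omega)]

/-- The series of the complete plethysms of a Lie character of odd degree. -/
def Es (i : ℕ) : PowerSeries R := Lam (2 * i + 1) (by omega) (pl (Lie (2 * i + 1))) Hser

/-- Its logarithmic derivative. -/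
def Ss (i : ℕ) : PowerSeries R :=
  PowerSeries.C ((2 * i + 1 : ℕ) : R) * Lam (2 * i + 1) (by omega) (pl (Lie (2 * i + 1))) Xser

theorem theta_Es (i : ℕ) : theta (Es i) = Es i * Ss i := by
  rw [Es, theta_Lam, theta_H, map_mul, Ss]
  ring

theorem coeff_Ss (i j : ℕ) : coeff j (Ss i) = if j = 0 then 0 else LieT (2 * i + 1) j := by
  rw [Ss, coeff_C_mul, coeff_Lam, LieT, dif_neg (by omega)]
  by_cases hj : j = 0
  · subst hj
    simp [Xser]
  · rw [if_neg hj]
    by_cases hd : (2 * i + 1) ∣ j
    · rw [if_pos hd, if_pos hd, Xser, coeff_mk, if_neg, pl_X]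
      obtain ⟨k, rfl⟩ := hd
      rw [Nat.mul_div_cancel_left _ (by omega)]
      rintro rfl
      exact hj (by simp)
    · rw [if_neg hd, if_neg hd, mul_zero]

theorem coeff_Ss_of_lt {i j : ℕ} (h : j < 2 * i + 1) : coeff j (Ss i) = 0 := by
  rw [coeff_Ss]
  split_ifs with hj
  · rfl
  · rw [LieT, dif_neg (by omega), if_neg]
    exact fun hd => absurd (Nat.le_of_dvd (Nat.pos_of_ne_zero hj) hd) (by omega)

theorem coeff_zero_Ss (i : ℕ) : coeff 0 (Ss i) = 0 := coeff_Ss_of_lt (by omega)

/-- The partial products. -/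
def Po (M : ℕ) : PowerSeries R := ∏ i ∈ Finset.range (M + 1), Es i

theorem theta_prod (s : Finset ℕ) :
    theta (∏ i ∈ s, Es i) = (∏ i ∈ s, Es i) * ∑ i ∈ s, Ss i := by
  induction s using Finset.induction_on with
  | empty => rw [Finset.prod_empty, Finset.sum_empty, theta_one, mul_zero]
  | insert a s ha ih =>
    rw [Finset.prod_insert ha, Finset.sum_insert ha, theta_mul, ih, theta_Es]
    ring

theorem coeff_zero_Es (i : ℕ) : coeff 0 (Es i) = 1 := by
  rw [Es, coeff_Lam, if_pos (dvd_zero _), Nat.zero_div, Hser, coeff_mk, hn_zero, map_one]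

theorem coeff_zero_prod (s : Finset ℕ) : coeff 0 (∏ i ∈ s, Es i) = 1 := by
  induction s using Finset.induction_on with
  | empty => simp
  | insert a s ha ih => rw [Finset.prod_insert ha, coeff_zero_mul, ih, coeff_zero_Es, mul_one]

/-- The coefficients of the logarithmic derivative. -/
def sser : PowerSeries R := PowerSeries.mk fun j => ∑ i ∈ Finset.range (j + 1), coeff j (Ss i)

theorem coeff_sser {M j : ℕ} (h : j ≤ M) :
    coeff j sser = coeff j (∑ i ∈ Finset.range (M + 1), Ss i) := by
  rw [sser, coeff_mk, map_sum]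
  refine Finset.sum_subset (Finset.range_mono (by omega)) fun i _ hi => ?_
  rw [Finset.mem_range] at hi
  exact coeff_Ss_of_lt (by omega)

theorem coeff_zero_sum_Ss (s : Finset ℕ) : coeff 0 (∑ i ∈ s, Ss i) = 0 := by
  rw [map_sum]
  exact Finset.sum_eq_zero fun i _ => coeff_zero_Ss i

theorem coeff_zero_sser : coeff 0 sser = 0 := by
  rw [coeff_sser (Nat.zero_le 0), coeff_zero_sum_Ss]

/-- The series of averages of `2`-parts of permutations. -/
def To : PowerSeries R := PowerSeries.mk fun n => coeff n (Po n)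

theorem coeff_To {M n : ℕ} (h : n ≤ M) : coeff n To = coeff n (Po M) := by
  rw [To, coeff_mk]
  refine agree n (theta_prod _) (theta_prod _) ?_ (coeff_zero_sum_Ss _) (coeff_zero_sum_Ss _) ?_
    n le_rfl
  · rw [coeff_zero_prod, coeff_zero_prod]
  · intro j hj
    rw [← coeff_sser hj, ← coeff_sser (hj.trans h)]

theorem coeff_zero_To : coeff 0 To = 1 := by
  rw [coeff_To le_rfl]
  exact coeff_zero_prod _

theorem theta_To : theta To = To * sser := by
  ext1 n
  rw [coeff_theta, coeff_To le_rfl, coeff_mul_range' _ _ _ coeff_zero_sser]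
  have h1 := congrArg (coeff n) (theta_prod (Finset.range (n + 1)))
  rw [coeff_theta, coeff_mul_range' _ _ _ (coeff_zero_sum_Ss _)] at h1
  rw [Po, h1]
  refine Finset.sum_congr rfl fun i hi => ?_
  have hi' := Finset.mem_range.1 hi
  rw [coeff_To (show n - (i + 1) ≤ n by omega), coeff_sser (show i + 1 ≤ n by omega)]
  rfl

/-! ## Positivity -/

theorem nc_pl_hn (n : ℕ) [NeZero n] (m : ℕ) : NC (n * m) (pl (Lie n) (hn m)) := by
  classical
  have h : pl (Lie n) (hn m) = Z (gwRep (MonoidHom.id (Equiv.Perm (Fin m))) (regC n))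
      (gwChar _ (Subgroup.subtype (rootsOfUnity n ℂ)) 1) := by
    rw [Z_gw]
    rfl
  rw [h]
  refine NC.gen _ _ _ _ _ ?_
  rw [Fintype.card_prod, Fintype.card_fin, card_roots, mul_comm]

theorem pos_Es (N i : ℕ) : Pos N (Es i) := by
  intro n _
  rw [Es, coeff_Lam]
  split_ifs with h
  · obtain ⟨k, rfl⟩ := h
    rw [Nat.mul_div_cancel_left _ (by omega), Hser, coeff_mk]
    exact nc_pl_hn (2 * i + 1) k
  · exact NC.zero n

theorem pos_prod (N : ℕ) (s : Finset ℕ) : Pos N (∏ i ∈ s, Es (i + 1)) := by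
  induction s using Finset.induction_on with
  | empty => rw [Finset.prod_empty]; exact Pos.one N
  | insert a s ha ih =>
    rw [Finset.prod_insert ha]
    exact (pos_Es N _).mul ih

theorem Pos.sub_one {N : ℕ} {f : PowerSeries R} (hf : Pos N f) (h0 : coeff 0 f = 1) :
    Pos N (f - 1) := by
  intro n hn
  rw [map_sub, coeff_one]
  split_ifs with h
  · rw [h, h0, sub_self]
    exact NC.zero 0
  · rw [sub_zero]
    exact hf n hn

theorem Lie_one : Lie 1 = MvPolynomial.X 1 := by
  have h := sum_LieT 1 one_ne_zero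
  rw [Nat.divisors_one, Finset.sum_singleton, pow_one, LieT, dif_neg one_ne_zero,
    if_pos (dvd_refl 1), Nat.div_self one_pos, psi_one, Nat.cast_one, one_mul] at h
  exact h

theorem pl_X_one (f : R) : pl (MvPolynomial.X 1) f = f := by
  have h : pl (MvPolynomial.X 1) = AlgHom.id ℂ R := by
    refine MvPolynomial.algHom_ext fun k => ?_
    rw [pl_X, psi_X, mul_one, AlgHom.id_apply]
  rw [h, AlgHom.id_apply]

theorem Es_zero : Es 0 = Hser := by
  ext1 j
  rw [Es, coeff_Lam, if_pos (by simp)]
  have h : Lie (2 * 0 + 1) = MvPolynomial.X 1 := Lie_one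
  rw [h, pl_X_one]
  simp

theorem pos_Hser (N : ℕ) : Pos N Hser := by
  rw [← Es_zero]
  exact pos_Es N 0

/-- The first inequality. -/
theorem nc_To_sub (n : ℕ) : NC n (coeff n To - hn n) := by
  have h1 : Po n = Hser * ∏ i ∈ Finset.range n, Es (i + 1) := by
    rw [Po, Finset.prod_range_succ', Es_zero, mul_comm]
  have h2 : coeff n To - hn n = coeff n (Hser * (∏ i ∈ Finset.range n, Es (i + 1) - 1)) := by
    rw [coeff_To le_rfl, h1, mul_sub, map_sub, mul_one]
    congr 1
    rw [Hser, coeff_mk]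
  rw [h2]
  have h3 : coeff 0 (∏ i ∈ Finset.range n, Es (i + 1)) = 1 := by
    have h4 : ∏ i ∈ Finset.range n, Es (i + 1)
        = ∏ i ∈ (Finset.range n).map ⟨fun i => i + 1, add_left_injective 1⟩, Es i := by
      rw [Finset.prod_map]
      rfl
    rw [h4, coeff_zero_prod]
  exact ((pos_Hser (n + 1)).mul ((pos_prod (n + 1) _).sub_one h3)) n (by omega)

end Pool.Agent.Helper70.Inv
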