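import Pool.Agent.Helper70.Inv.Pl

/-!
# The cone and general wreath products
-/

set_option autoImplicit false

open MvPolynomial Equiv Equiv.Perm

open Pool.Agent.Helper70.Sym

noncomputable section

namespace Pool.Agent.Helper70.Inv

section wreath

variable {Γ α B Y : Type} [Group Γ] [Group B] (ρ : Γ →* Perm α) (τ : B →* Perm Y)

/-- The action of `Γ` on functions. -/
def actB (B : Type) [Group B] : Γ →* MulAut (α → B) where
  toFun γ :=
    { toFun := fun v x => v ((ρ γ)⁻¹ x)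
      invFun := fun v x => v ((ρ γ) x)
      left_inv := fun v => by ext x; simp
      right_inv := fun v => by ext x; simp
      map_mul' := fun v w => rfl }
  map_one' := by ext v x; simp
  map_mul' γ δ := by ext v x; simp

theorem actB_apply (γ : Γ) (v : α → B) (x : α) : actB ρ B γ v x = v ((ρ γ)⁻¹ x) := rfl

/-- The general wreath product. -/
abbrev GW (B : Type) [Group B] := (α → B) ⋊[actB ρ B] Γ

/-- The action of the wreath product. -/
def gwRep : GW ρ B →* Perm (α × Y) where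
  toFun w := twp (ρ w.right) (fun x => τ (w.left (ρ w.right x)))
  map_one' := by
    refine Equiv.ext fun p => ?_
    obtain ⟨x, y⟩ := p
    simp [twp]
  map_mul' w w' := by
    refine Equiv.ext fun p => ?_
    obtain ⟨x, b⟩ := p
    rw [mul_apply, twp_apply, twp_apply, twp_apply]
    simp [actB_apply]

variable [Fintype α] [DecidableEq α]

/-- The linear character of the wreath product. -/
def gwChar (χ : B →* ℂˣ) (ψ : Γ →* ℂˣ) : GW ρ B →* ℂˣ where
  toFun w := (∏ x, χ (w.left x)) * ψ w.right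
  map_one' := by simp
  map_mul' w w' := by
    have h1 : ∏ x, χ ((actB ρ B w.right w'.left) x) = ∏ x, χ (w'.left x) := by
      simp_rw [actB_apply]
      exact Equiv.prod_comp (ρ w.right)⁻¹ (fun x => χ (w'.left x))
    simp only [SemidirectProduct.mul_left, SemidirectProduct.mul_right, Pi.mul_apply,
      Finset.prod_mul_distrib, map_mul, h1]
    exact mul_mul_mul_comm _ _ _ _

instance [Fintype Γ] [Fintype B] : Fintype (GW ρ B) :=
  Fintype.ofEquiv _ SemidirectProduct.equivProd.symm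

theorem Z_gw [Fintype Γ] [Fintype B] [Fintype Y] [DecidableEq Y] (χ : B →* ℂˣ) (ψ : Γ →* ℂˣ) :
    Z (gwRep ρ τ) (gwChar ρ χ ψ) = pl (Z τ χ) (Z ρ ψ) := by
  conv_lhs => unfold Z
  have hcard : Fintype.card (GW ρ B) = Fintype.card B ^ Fintype.card α * Fintype.card Γ := by
    rw [Fintype.card_congr (SemidirectProduct.equivProd (φ := actB ρ B)), Fintype.card_prod,
      Fintype.card_fun]
  rw [hcard, ← (SemidirectProduct.equivProd (φ := actB ρ B)).symm.sum_comp,
    Fintype.sum_prod_type, Finset.sum_comm]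
  have h1 : ∀ γ : Γ, ∑ v : α → B,
      (C (((gwChar ρ χ ψ) (SemidirectProduct.equivProd.symm (v, γ)) : ℂˣ) : ℂ) : R) *
        mon ((gwRep ρ τ) (SemidirectProduct.equivProd.symm (v, γ)))
      = C ((ψ γ : ℂˣ) : ℂ) * (C ((Fintype.card B : ℂ) ^ Fintype.card α) *
        pl (Z τ χ) (mon (ρ γ))) := by
    intro γ
    rw [← sum_mon_twp, Finset.mul_sum, ← Equiv.sum_comp (Equiv.arrowCongr (ρ γ) (Equiv.refl B))]
    refine Finset.sum_congr rfl fun v _ => ?_
    have h2 : gwRep ρ τ (SemidirectProduct.equivProd.symm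
        ((Equiv.arrowCongr (ρ γ) (Equiv.refl B)) v, γ)) = twp (ρ γ) fun x => τ (v x) := by
      refine Equiv.ext fun p => ?_
      obtain ⟨x, b⟩ := p
      simp [gwRep, twp, SemidirectProduct.equivProd]
    have h3 : ((gwChar ρ χ ψ (SemidirectProduct.equivProd.symm
        ((Equiv.arrowCongr (ρ γ) (Equiv.refl B)) v, γ)) : ℂˣ) : ℂ)
        = ((∏ x, χ (v x) : ℂˣ) : ℂ) * ((ψ γ : ℂˣ) : ℂ) := by
      have h4 : ∏ x, χ ((Equiv.arrowCongr (ρ γ) (Equiv.refl B)) v x) = ∏ x, χ (v x) := by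
        rw [← Equiv.prod_comp (ρ γ)]
        simp
      have h5 : gwChar ρ χ ψ (SemidirectProduct.equivProd.symm
        ((Equiv.arrowCongr (ρ γ) (Equiv.refl B)) v, γ))
        = (∏ x, χ ((Equiv.arrowCongr (ρ γ) (Equiv.refl B)) v x)) * ψ γ := rfl
      rw [h5, h4, Units.val_mul]
    rw [h2, h3, C_mul]
    ring
  simp_rw [h1]
  have hZ : Z ρ ψ = C ((Fintype.card Γ : ℂ)⁻¹) * ∑ γ, C ((ψ γ : ℂˣ) : ℂ) * mon (ρ γ) := rfl
  rw [hZ, map_mul, map_sum, pl_C]
  simp only [map_mul, pl_C]
  have h6 : ∀ γ : Γ, (C ((ψ γ : ℂˣ) : ℂ) : R) * (C ((Fintype.card B : ℂ) ^ Fintype.card α) *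
      pl (Z τ χ) (mon (ρ γ))) = C ((Fintype.card B : ℂ) ^ Fintype.card α) *
      (C ((ψ γ : ℂˣ) : ℂ) * pl (Z τ χ) (mon (ρ γ))) := fun γ => by ring
  push_cast
  simp_rw [h6]
  rw [← Finset.mul_sum, ← mul_assoc, ← C_mul]
  congr 2
  have h7 : ((Fintype.card B : ℂ) ^ Fintype.card α) ≠ 0 :=
    pow_ne_zero _ (by exact_mod_cast Fintype.card_ne_zero)
  field_simp

end wreath

/-- Half the sum of the square and of the second Adams operation. -/
def h2 (f : R) : R := C (1 / 2 : ℂ) * (f ^ 2 + psi 2 f)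

/-- Half the difference of the square and of the second Adams operation. -/
def e2 (f : R) : R := C (1 / 2 : ℂ) * (f ^ 2 - psi 2 f)

theorem C_half : (C (1 / 2 : ℂ) : R) * 2 = 1 := by
  rw [← (map_ofNat C 2 : (C (2 : ℂ) : R) = 2), ← C_mul]
  norm_num

theorem h2_add (f g : R) : h2 (f + g) = h2 f + h2 g + f * g := by
  unfold h2
  rw [map_add]
  linear_combination (f * g) * C_half

theorem e2_add (f g : R) : e2 (f + g) = e2 f + e2 g + f * g := by
  unfold e2
  rw [map_add]
  linear_combination (f * g) * C_half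

theorem h2_zero : h2 0 = 0 := by simp [h2]

theorem e2_zero : e2 0 = 0 := by simp [e2]

/-- The sums of polynomials `Z ρ ψ`, with `ρ` a permutation representation of degree `n`. -/
inductive NC : ℕ → R → Prop
  | zero (n : ℕ) : NC n 0
  | add (n : ℕ) (f g : R) : NC n f → NC n g → NC n (f + g)
  | gen (Γ α : Type) [Group Γ] [Fintype Γ] [Fintype α] [DecidableEq α] (ρ : Γ →* Perm α)
      (ψ : Γ →* ℂˣ) (n : ℕ) (hn : Fintype.card α = n) : NC n (Z ρ ψ)

theorem NC.toCone {n : ℕ} {f : R} (h : NC n f) : Cone false n f := by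
  induction h with
  | zero n => exact Cone.zero n
  | add n f g _ _ hf hg => exact Cone.add n f g hf hg
  | gen Γ α ρ ψ n hn => exact Cone.gen Γ α ρ ψ n hn (by simp)

theorem NC.cast {m n : ℕ} {f : R} (h : NC m f) (hmn : m = n) : NC n f := hmn ▸ h

theorem NC.sum {n : ℕ} {ι : Type*} (s : Finset ι) (f : ι → R)
    (h : ∀ i ∈ s, NC n (f i)) : NC n (∑ i ∈ s, f i) := by
  classical
  induction s using Finset.induction_on with
  | empty => simpa using NC.zero n
  | insert a s ha ih =>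
    rw [Finset.sum_insert ha]
    exact NC.add n _ _ (h a (Finset.mem_insert_self a s))
      (ih fun i hi => h i (Finset.mem_insert_of_mem hi))

theorem NC.mul {m n : ℕ} {f g : R} (hf : NC m f) (hg : NC n g) : NC (m + n) (f * g) := by
  induction hf with
  | zero m => rw [zero_mul]; exact NC.zero _
  | add m f f' _ _ hf hf' => rw [add_mul]; exact NC.add _ _ _ hf hf'
  | gen Γ α ρ ψ m hm =>
    induction hg with
    | zero n => rw [mul_zero]; exact NC.zero _
    | add n g g' _ _ hg hg' => rw [mul_add]; exact NC.add _ _ _ hg hg'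
    | gen Γ' β ρ' ψ' n hn =>
      rw [← Z_mul]
      exact NC.gen _ _ _ _ _ (by rw [Fintype.card_sum, hm, hn])

theorem NC.one : NC 0 1 := by
  have h := NC.gen Unit Empty (1 : Unit →* Perm Empty) 1 0 (by simp)
  have h2 : Z (1 : Unit →* Perm Empty) 1 = 1 := by
    simp [Z, mon_empty]
  rwa [h2] at h

theorem Z_unit : Z (1 : Unit →* Perm Unit) 1 = X 1 := by
  simp [Z, mon_one]

theorem NC.X1 : NC 1 (X 1) := by
  have h := NC.gen Unit Unit (1 : Unit →* Perm Unit) 1 1 (by simp)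
  rwa [Z_unit] at h

theorem NC.pow {n : ℕ} {f : R} (hf : NC n f) (k : ℕ) : NC (k * n) (f ^ k) := by
  induction k with
  | zero => simpa using NC.one
  | succ k ih =>
    rw [pow_succ, Nat.succ_mul]
    exact ih.mul hf

theorem pl_phi (s : ℤˣ) (f : R) :
    pl f (phi s (X 1)) = C (1 / 2 : ℂ) * (f ^ 2 + C (((s : ℤ) : ℂ)) * psi 2 f) := by
  simp [phi, pl_X, psi_one]

theorem pl_phi_one (f : R) : pl f (phi 1 (X 1)) = h2 f := by
  rw [pl_phi, h2]
  simp

theorem pl_phi_neg (f : R) : pl f (phi (-1) (X 1)) = e2 f := by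
  rw [pl_phi, e2]
  simp only [Units.val_neg, Units.val_one, Int.cast_neg, Int.cast_one, map_neg, map_one]
  ring

theorem NC.pl_gen {n : ℕ} (s : ℤˣ) {Γ α : Type} [Group Γ] [Fintype Γ] [Fintype α]
    [DecidableEq α] (ρ : Γ →* Perm α) (ψ : Γ →* ℂˣ) (hn : Fintype.card α = n) :
    NC (2 * n) (pl (Z ρ ψ) (phi s (X 1))) := by
  rw [← Z_unit, ← Z_wr, ← Z_gw]
  refine NC.gen _ _ _ _ _ ?_
  rw [Fintype.card_prod, Fintype.card_prod, hn]
  rfl

theorem NC.h2 {n : ℕ} {f : R} (hf : NC n f) : NC (2 * n) (h2 f) := by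
  induction hf with
  | zero n => rw [h2_zero]; exact NC.zero _
  | add n f g hf' hg' hf hg =>
    rw [h2_add]
    exact NC.add _ _ _ (NC.add _ _ _ hf hg) ((hf'.mul hg').cast (by ring))
  | gen Γ α ρ ψ n hn =>
    rw [← pl_phi_one]
    exact NC.pl_gen 1 ρ ψ hn

theorem NC.e2 {n : ℕ} {f : R} (hf : NC n f) : NC (2 * n) (e2 f) := by
  induction hf with
  | zero n => rw [e2_zero]; exact NC.zero _
  | add n f g hf' hg' hf hg =>
    rw [e2_add]
    exact NC.add _ _ _ (NC.add _ _ _ hf hg) ((hf'.mul hg').cast (by ring))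
  | gen Γ α ρ ψ n hn =>
    rw [← pl_phi_neg]
    exact NC.pl_gen (-1) ρ ψ hn

end Pool.Agent.Helper70.Inv
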